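import Pool.Agent.Work.MP_cda74c_nt.Hedge.Multi
import Mathlib
import Pool.Agent.Lib.ANT.Mertens
import Pool.Agent.Work.MP_cda74c_nt.Basic
import Pool.Agent.Lib.ANT.PNT

-- merged part: Pool.Agent.Work.MP_cda74c_nt.Hedge.Stock
section
/-!
Construction of disjoint covering systems with a large prime and few repetitions.
-/

namespace Pool.Agent.Work.MP_cda74c_nt.Hedge

open Finset Pool.Agent.Work.MP_cda74c_nt

/-- `N` finite exact covers of the natural numbers with moduli in `S`, every modulus being used at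
most `r` times altogether. -/
def Stock (r : ℕ) (S : Set ℕ) (N : ℕ) : Prop :=
  ∃ (I : Type) (_ : Finite I) (col a m : I → ℕ), (∀ i, m i ∈ S) ∧
    (∀ d, {i | m i = d}.encard ≤ r) ∧ (∀ i, col i < N) ∧
    ∀ c < N, ∀ x : ℕ, ∃! i, col i = c ∧ x ≡ a i [MOD m i]

lemma Stock.base (r : ℕ) : Stock r {1} r := by
  refine ⟨Fin r, inferInstance, fun i => i, fun _ => 0, fun _ => 1, fun _ => rfl, fun d => ?_,
    fun i => i.is_lt, fun c hc x => ⟨⟨c, hc⟩, ⟨rfl, Nat.modEq_one⟩, fun j hj => Fin.ext hj.1⟩⟩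
  refine (Set.encard_le_encard (Set.subset_univ _)).trans ?_
  simp

lemma Stock.mono {r N N' : ℕ} {S T : Set ℕ} (h : Stock r S N) (hST : S ⊆ T) (hN : N' ≤ N) :
    Stock r T N' := by
  obtain ⟨I, _, col, a, m, h1, h2, -, h4⟩ := h
  refine ⟨{i // col i < N'}, inferInstance, fun i => col i, fun i => a i, fun i => m i,
    fun i => hST (h1 i), fun d => ?_, fun i => i.2, fun c hc x => ?_⟩
  · refine le_trans ?_ (h2 d)
    rw [← Subtype.val_injective.encard_image]
    refine Set.encard_le_encard ?_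
    rintro _ ⟨i, hi, rfl⟩
    exact hi
  · obtain ⟨i, hi, hu⟩ := h4 c (by omega) x
    exact ⟨⟨i, hi.1 ▸ hc⟩, hi, fun j hj => Subtype.ext (hu j hj)⟩

lemma Stock.split {r N q : ℕ} {S : Set ℕ} (hq : 0 < q) (h : Stock r S (q * N)) :
    Stock r ((fun m => q * m) '' S) N := by
  obtain ⟨I, _, col, a, m, h1, h2, h3, h4⟩ := h
  refine ⟨I, inferInstance, fun i => col i / q, fun i => q * a i + col i % q, fun i => q * m i,
    fun i => ⟨m i, h1 i, rfl⟩, fun d => ?_, fun i => Nat.div_lt_of_lt_mul (h3 i),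
    fun c hc x => ?_⟩
  · refine le_trans (Set.encard_le_encard fun i hi => ?_) (h2 (d / q))
    have : q * m i = d := hi
    change m i = d / q
    rw [← this, Nat.mul_div_cancel_left _ hq]
  · have hx := Nat.mod_lt x hq
    obtain ⟨i, ⟨hi1, hi2⟩, hu⟩ := h4 (q * c + x % q) (by nlinarith) (x / q)
    have e1 : (q * c + x % q) / q = c := by
      rw [Nat.mul_add_div hq, Nat.div_eq_of_lt hx, add_zero]
    have e2 : (q * c + x % q) % q = x % q := by
      rw [Nat.mul_add_mod, Nat.mod_mod]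
    refine ⟨i, ⟨by simp only [hi1, e1], ?_⟩, fun j hj => hu j ?_⟩
    · have := (hi2.mul_left' q).add_right (x % q)
      rw [Nat.div_add_mod] at this
      simpa only [hi1, e2] using this
    · have hj1 : col j / q = c := hj.1
      have hj2 : x ≡ q * a j + col j % q [MOD q * m j] := hj.2
      have e3 : x % q = col j % q := by
        have : x % q = (q * a j + col j % q) % q := hj2.of_mul_right _
        rwa [Nat.mul_add_mod, Nat.mod_mod] at this
      refine ⟨by rw [← hj1, e3, Nat.div_add_mod], ?_⟩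
      rw [← e3] at hj2
      nth_rewrite 1 [← Nat.div_add_mod x q] at hj2
      exact Nat.ModEq.mul_left_cancel' hq.ne' (Nat.ModEq.add_right_cancel' _ hj2)

lemma Stock.union {r N N' : ℕ} {S T : Set ℕ} (h : Stock r S N) (h' : Stock r T N')
    (hd : Disjoint S T) : Stock r (S ∪ T) (N + N') := by
  obtain ⟨I, _, col, a, m, h1, h2, h3, h4⟩ := h
  obtain ⟨J, _, col', a', m', h1', h2', h3', h4'⟩ := h'
  refine ⟨I ⊕ J, inferInstance, Sum.elim col fun j => N + col' j, Sum.elim a a', Sum.elim m m',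
    ?_, fun d => ?_, ?_, fun c hc x => ?_⟩
  · rintro (i | j)
    · exact Or.inl (h1 i)
    · exact Or.inr (h1' j)
  · by_cases hS : d ∈ S
    · refine le_trans (Set.encard_le_encard ?_)
        (((Sum.inl_injective (β := J)).encard_image _).trans_le (h2 d))
      rintro (i | j) hi
      · exact ⟨i, hi, rfl⟩
      · have : m' j = d := hi
        exact absurd (this ▸ h1' j) (Set.disjoint_left.1 hd hS)
    · refine le_trans (Set.encard_le_encard ?_)
        (((Sum.inr_injective (α := I)).encard_image _).trans_le (h2' d))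
      rintro (i | j) hi
      · have : m i = d := hi
        exact absurd (this ▸ h1 i) hS
      · exact ⟨j, hi, rfl⟩
  · rintro (i | j)
    · exact (h3 i).trans_le (Nat.le_add_right _ _)
    · exact Nat.add_lt_add_left (h3' j) N
  · by_cases hcN : c < N
    · obtain ⟨i, hi, hu⟩ := h4 c hcN x
      refine ⟨Sum.inl i, hi, ?_⟩
      rintro (j | j) hj
      · exact congrArg Sum.inl (hu j hj)
      · have : N + col' j = c := hj.1
        omega
    · obtain ⟨i, hi, hu⟩ := h4' (c - N) (by omega) x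
      refine ⟨Sum.inr i, ⟨show N + col' i = c by omega, hi.2⟩, ?_⟩
      rintro (j | j) hj
      · have h5 : col j = c := hj.1
        have := h3 j
        omega
      · have h5 : N + col' j = c := hj.1
        exact congrArg Sum.inr (hu j ⟨by omega, hj.2⟩)

lemma Stock.step {r N q : ℕ} (hq : (q + 1).Prime) (h : Stock r (q + 1).smoothNumbers N) (x : ℕ)
    (hx : x * q + 1 ≤ N * (q + 1) ∨ x ≤ N) : Stock r (q + 1 + 1).smoothNumbers x := by
  have hsub : (q + 1).smoothNumbers ⊆ (q + 1 + 1).smoothNumbers :=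
    Nat.smoothNumbers_mono (Nat.le_succ _)
  induction x with
  | zero => exact h.mono hsub (Nat.zero_le _)
  | succ x ih =>
    by_cases hN : x + 1 ≤ N
    · exact h.mono hsub hN
    have h1 := hx.resolve_right hN
    have h2 := ((ih (Or.inl (by nlinarith))).mono subset_rfl
      (Nat.mul_div_le x (q + 1))).split hq.pos
    refine (h.union h2 ?_).mono ?_ ?_
    · rw [Set.disjoint_left]
      rintro _ h3 ⟨m, -, rfl⟩
      exact lt_irrefl _ (Nat.mem_smoothNumbers'.1 h3 _ hq (Dvd.intro _ rfl))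
    · rintro _ (h3 | ⟨m, hm, rfl⟩)
      · exact hsub h3
      · exact Nat.mul_mem_smoothNumbers
          (Nat.mem_smoothNumbers_of_lt hq.pos (Nat.lt_succ_self _)) hm
    · obtain ⟨t, ht⟩ : ∃ t, x + 1 = N + t := ⟨x + 1 - N, by omega⟩
      have : t ≤ x / (q + 1) := by
        rw [Nat.le_div_iff_mul_le hq.pos]
        rw [ht] at h1
        nlinarith
      omega

lemma one_le_K (y : ℕ) : 1 ≤ K y := by
  unfold K
  refine Finset.one_le_prod fun p hp => ?_
  have h := one_sub_inv_pos (Nat.prime_of_mem_primesBelow hp)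
  have : (0 : ℝ) ≤ (p : ℝ)⁻¹ := by positivity
  exact (one_le_inv₀ h).2 (by linarith)

lemma stock_K (r y : ℕ) : ∃ N : ℕ, Stock r y.smoothNumbers N ∧
    K y * (r - (y.primesBelow.card : ℝ)) ≤ N := by
  induction y with
  | zero => exact ⟨r, by simpa using Stock.base r, by simp [K]⟩
  | succ y ih =>
    obtain ⟨N, h1, h2⟩ := ih
    by_cases hy : y.Prime
    · obtain ⟨q, rfl⟩ : ∃ q, y = q + 1 := ⟨y - 1, by have := hy.pos; omega⟩
      have hq : 0 < q := by have := hy.two_le; omega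
      refine ⟨(N * (q + 1) - 1) / q, h1.step hy _ ?_, ?_⟩
      · rcases Nat.eq_zero_or_pos N with rfl | hN
        · right; simp
        · left
          have := Nat.div_mul_le_self (N * (q + 1) - 1) q
          have : 0 < N * (q + 1) := by positivity
          omega
      · have h3 : N * (q + 1) ≤ ((N * (q + 1) - 1) / q + 1) * q := by
          have := Nat.lt_div_mul_add (a := N * (q + 1) - 1) hq
          rw [add_mul, one_mul]
          omega
        have h4 : (N : ℝ) * (q + 1) ≤ ((((N * (q + 1) - 1) / q : ℕ) : ℝ) + 1) * q := by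
          exact_mod_cast h3
        have h5 := one_le_K (q + 1 + 1)
        have hq' : (0 : ℝ) < q := by exact_mod_cast hq
        have h6 : K (q + 1 + 1) = (q + 1) / q * K (q + 1) := by
          rw [K_succ_prime hy]
          push_cast
          congr 1
          rw [show 1 - ((q : ℝ) + 1)⁻¹ = q / (q + 1) by field_simp; ring, inv_div]
        have h7 : ((q + 1 + 1).primesBelow.card : ℝ) = (q + 1).primesBelow.card + 1 := by
          rw [Nat.primesBelow_succ, if_pos hy,
            Finset.card_insert_of_notMem (by simp [Nat.mem_primesBelow])]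
          push_cast
          rfl
        have h8 : ((q : ℝ) + 1) / q * N ≤ (((N * (q + 1) - 1) / q : ℕ) : ℝ) + 1 := by
          rw [div_mul_eq_mul_div, div_le_iff₀ hq']
          linarith
        have h9 := mul_le_mul_of_nonneg_left h2 (by positivity : (0 : ℝ) ≤ ((q : ℝ) + 1) / q)
        rw [← mul_assoc, ← h6] at h9
        rw [h7]
        linarith
    · refine ⟨N, h1.mono (Nat.smoothNumbers_mono (Nat.le_succ _)) le_rfl, ?_⟩
      rw [K_succ_not_prime hy, Nat.primesBelow_succ, if_neg hy]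
      exact h2

/-- The primes which divide a modulus of an infinite disjoint covering system of the positive
integers with reciprocal sum one and every modulus repeated at most `r` times. -/
def Primes (r : ℕ) : Set ℕ :=
  {p | p.Prime ∧ ∃ (I : Type) (a : I → ℤ) (m : I → ℕ), Infinite I ∧ (∀ i, 2 ≤ m i) ∧
    (∀ n : ℤ, 1 ≤ n → ∃! i, n ≡ a i [ZMOD m i]) ∧ HasSum (fun i => (1 : ℝ) / m i) 1 ∧
    (∀ d, {i | m i = d}.encard ≤ r) ∧ ∃ i, p ∣ m i}

lemma Stock.system {r p : ℕ} (hr : 1 ≤ r) {S : Set ℕ} (h : Stock r S 1) (hp : p.Prime)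
    (h0 : ∀ m ∈ S, m ≠ 0) (h2 : ∀ m ∈ S, ∀ j, m ≠ 2 ^ (j + 1)) (hd : ∀ m ∈ S, p ∣ 2 * m) :
    p ∈ Primes r := by
  classical
  obtain ⟨I, _, col, a, m, h1, h3, h4, h5⟩ := h
  have : Fintype I := Fintype.ofFinite I
  have h6 : ∀ x : ℕ, ∃! i, x ≡ a i [MOD m i] := fun x => by
    obtain ⟨i, hi, hu⟩ := h5 0 one_pos x
    exact ⟨i, hi.2, fun j hj => hu j ⟨Nat.lt_one_iff.1 (h4 j), hj⟩⟩
  refine ⟨hp, I ⊕ ℕ, Sum.elim (fun i => 2 * a i + 1) fun j => 2 ^ (j + 1),
    Sum.elim (fun i => 2 * m i) fun j => 2 ^ (j + 2), inferInstance, ?_, fun n hn => ?_, ?_,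
    fun d => ?_, ?_⟩
  · rintro (i | j)
    · have := h0 _ (h1 i)
      change 2 ≤ 2 * m i
      omega
    · exact Nat.le_self_pow (by omega) 2
  · have hL : ∀ i, n ≡ 2 * a i + 1 [ZMOD (2 * m i : ℕ)] → n % 2 = 1 := fun i hi => by
      have : (2 : ℤ) ∣ 2 * a i + 1 - n :=
        (by push_cast; exact Dvd.intro _ rfl : (2 : ℤ) ∣ (2 * m i : ℕ)).trans hi.dvd
      omega
    have hR : ∀ j : ℕ, n ≡ 2 ^ (j + 1) [ZMOD (2 ^ (j + 2) : ℕ)] → n % 2 = 0 := fun j hj => by
      have : (2 : ℤ) ∣ 2 ^ (j + 1) - n :=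
        (by push_cast; exact dvd_pow_self 2 (by omega) : (2 : ℤ) ∣ (2 ^ (j + 2) : ℕ)).trans hj.dvd
      omega
    rcases Int.even_or_odd' n with ⟨t, rfl | rfl⟩
    · obtain ⟨α, hα, hu⟩ := two_adic (n := t) (by omega)
      have hE : ∀ j : ℕ, 2 * t ≡ 2 ^ (j + 1) [ZMOD (2 ^ (j + 2) : ℕ)] ↔
          t ≡ 2 ^ j [ZMOD 2 ^ (j + 1)] := fun j => by
        push_cast
        rw [Int.modEq_iff_dvd, Int.modEq_iff_dvd, pow_succ' 2 (j + 1), pow_succ' 2 j, ← mul_sub,
          mul_dvd_mul_iff_left (by norm_num)]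
      refine ⟨Sum.inr α, (hE α).2 hα, ?_⟩
      rintro (i | j) hj
      · have := hL i hj
        omega
      · exact congrArg Sum.inr (hu j ((hE j).1 hj))
    · obtain ⟨x, rfl⟩ := Int.eq_ofNat_of_zero_le (by omega : 0 ≤ t)
      obtain ⟨i, hi, hu⟩ := h6 x
      have hO : ∀ i, 2 * (x : ℤ) + 1 ≡ 2 * a i + 1 [ZMOD (2 * m i : ℕ)] ↔ x ≡ a i [MOD m i] :=
        fun i => by
          push_cast
          rw [Int.modEq_iff_dvd, Nat.modEq_iff_dvd, add_sub_add_right_eq_sub, ← mul_sub,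
            mul_dvd_mul_iff_left (by norm_num)]
      refine ⟨Sum.inl i, (hO i).2 hi, ?_⟩
      rintro (j | j) hj
      · exact congrArg Sum.inl (hu j ((hO j).1 hj))
      · have := hR j hj
        omega
  · have hM : 0 < ∏ i, m i := Finset.prod_pos fun i _ => Nat.pos_of_ne_zero (h0 _ (h1 i))
    have h7 := sum_eq_count univ m a hM fun i hi => Finset.dvd_prod_of_mem _ hi
    have h8 : ∀ x ∈ range (∏ i, m i),
        (((univ : Finset I).filter fun i => x ≡ a i [MOD m i]).card : ℝ) = 1 := fun x _ => by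
      obtain ⟨i, hi, hu⟩ := h6 x
      have : (univ : Finset I).filter (fun i => x ≡ a i [MOD m i]) = {i} :=
        Finset.eq_singleton_iff_unique_mem.2
          ⟨by simpa using hi, fun j hj => hu j (Finset.mem_filter.1 hj).2⟩
      rw [this]
      simp
    rw [Finset.sum_congr rfl h8, Finset.sum_const, Finset.card_range, nsmul_eq_mul, mul_one] at h7
    have hM' : (0 : ℝ) < (∏ i, m i : ℕ) := by exact_mod_cast hM
    have h9 : ∑ i, (1 : ℝ) / (2 * m i : ℕ) = 1 / 2 := by
      refine mul_left_cancel₀ (mul_pos two_pos hM').ne' ?_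
      rw [Finset.mul_sum, mul_assoc, mul_comm _ (1 / 2 : ℝ), ← mul_assoc, mul_one_div_cancel
        two_ne_zero, one_mul]
      refine Eq.trans (Finset.sum_congr rfl fun i _ => ?_) h7
      rw [Nat.cast_mul, mul_one_div, Nat.cast_ofNat, mul_div_mul_left _ _ two_ne_zero]
    have hA : HasSum (fun i : I => (1 : ℝ) / (2 * m i : ℕ)) (1 / 2) := h9 ▸ hasSum_fintype _
    have hB : HasSum (fun j : ℕ => (1 : ℝ) / (2 ^ (j + 2) : ℕ)) (1 / 2) := by
      have := hasSum_geometric_two.mul_right (1 / 4)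
      rw [show (2 : ℝ) * (1 / 4) = 1 / 2 by norm_num] at this
      have e : (fun j : ℕ => (1 : ℝ) / (2 ^ (j + 2) : ℕ)) = fun j => (1 / 2) ^ j * (1 / 4) := by
        funext j
        push_cast
        rw [pow_add, one_div_pow]
        field_simp
        norm_num
      rw [e]
      exact this
    have := HasSum.sum (f := fun i : I ⊕ ℕ =>
      (1 : ℝ) / (Sum.elim (fun i => 2 * m i) (fun j => 2 ^ (j + 2)) i : ℕ)) hA hB
    rwa [add_halves] at this
  · by_cases hS : ∃ j, d = 2 ^ (j + 2)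
    · obtain ⟨j, rfl⟩ := hS
      refine le_trans (Set.encard_le_one_iff.2 ?_) (by exact_mod_cast hr)
      have key : ∀ i : I ⊕ ℕ, Sum.elim (fun i => 2 * m i) (fun j => 2 ^ (j + 2)) i = 2 ^ (j + 2) →
          i = Sum.inr j := by
        rintro (i | i) hi
        · have : 2 * m i = 2 ^ (j + 2) := hi
          rw [pow_succ' 2 (j + 1)] at this
          exact absurd (Nat.eq_of_mul_eq_mul_left two_pos this) (h2 _ (h1 i) j)
        · have : 2 ^ (i + 2) = 2 ^ (j + 2) := hi
          have := Nat.pow_right_injective le_rfl this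
          rw [show i = j by omega]
      exact fun i i' hi hi' => (key i hi).trans (key i' hi').symm
    · refine le_trans (Set.encard_le_encard ?_)
        (((Sum.inl_injective (β := ℕ)).encard_image _).trans_le (h3 (d / 2)))
      rintro (i | j) hi
      · have : 2 * m i = d := hi
        exact ⟨i, show m i = d / 2 by omega, rfl⟩
      · exact absurd ⟨j, Eq.symm hi⟩ hS
  · obtain ⟨i, -⟩ := h6 0
    exact ⟨Sum.inl i, hd _ (h1 i)⟩

lemma two_mem {r : ℕ} (hr : 1 ≤ r) : 2 ∈ Primes r := by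
  refine ((Stock.base r).mono subset_rfl hr).system hr Nat.prime_two ?_ ?_ ?_
  · rintro _ rfl
    norm_num
  · rintro _ rfl j
    omega
  · rintro _ rfl
    norm_num

lemma odd_mem {r p : ℕ} (hr : 1 ≤ r) (hp : p.Prime) (h2 : p ≠ 2)
    (h : (p : ℝ) ≤ K r * (r - (r.primesBelow.card : ℝ))) : p ∈ Primes r := by
  obtain ⟨N, h1, h3⟩ := stock_K r r
  have h4 : p * 1 ≤ N := by
    rw [mul_one]
    exact_mod_cast h.trans h3
  refine ((h1.mono subset_rfl h4).split hp.pos).system hr hp ?_ ?_ ?_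
  · rintro _ ⟨m, hm, rfl⟩
    exact mul_ne_zero hp.ne_zero hm.1
  · rintro _ ⟨m, -, rfl⟩ j hj
    exact h2 ((Nat.prime_dvd_prime_iff_eq hp Nat.prime_two).1
      (hp.dvd_of_dvd_pow (Dvd.intro _ hj)))
  · rintro _ ⟨m, -, rfl⟩
    exact (Dvd.intro _ rfl).mul_left 2

lemma sys_of {I : Type} {r : ℕ} {a : I → ℤ} {m : I → ℕ} (h1 : ∀ i, 2 ≤ m i)
    (h2 : ∀ n : ℤ, 1 ≤ n → ∃! i, n ≡ a i [ZMOD m i]) (h3 : HasSum (fun i => (1 : ℝ) / m i) 1)
    (h4 : ∀ d, {i | m i = d}.encard ≤ r) : Sys r 1 a m :=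
  ⟨fun i => by have := h1 i; omega, h4,
    fun n hn => Set.encard_le_one_iff.2 fun _ _ hi hj => (h2 n hn).unique hi hj,
    by exact_mod_cast h3⟩

lemma exists_greatest {r : ℕ} (hr : 1 ≤ r) :
    ∃ P, IsGreatest (Primes r) P ∧ (P : ℝ) - 1 ≤ r * K P := by
  obtain ⟨y, hy⟩ := primes_bdd r 1 one_pos
  have hb : BddAbove (Primes r) := ⟨y, by
    rintro p ⟨hp, I, a, m, -, h1, h2, h3, h4, i, hi⟩
    exact (hy a m (sys_of h1 h2 h3 h4) i p hp hi).le⟩
  have hmem := Nat.sSup_mem ⟨2, two_mem hr⟩ hb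
  refine ⟨_, ⟨hmem, fun p hp => le_csSup hb hp⟩, ?_⟩
  obtain ⟨hp, I, a, m, h0, h1, h2, h3, h4, i, hi⟩ := hmem
  exact (sys_of h1 h2 h3 h4).largest hp hi fun j q hq hj =>
    le_csSup hb ⟨hq, I, a, m, h0, h1, h2, h3, h4, j, hj⟩

end Pool.Agent.Work.MP_cda74c_nt.Hedge
end

-- merged part: Pool.Agent.Work.MP_cda74c_nt.Hedge.Mert
section
/-!
The third theorem of Mertens with the constant.
-/

namespace Pool.Agent.Work.MP_cda74c_nt.Hedge

open Finset Filter Topology Real Pool.Agent.Lib.ANT Pool.Agent.Work.MP_cda74c_nt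

/-- The primes up to `N`. -/
def Pr (N : ℕ) : Finset ℕ := (Ioc 0 N).filter Nat.Prime

noncomputable def ell (p : ℕ) : ℝ := -log (1 - (p : ℝ)⁻¹)

noncomputable def LL (N : ℕ) : ℝ := ∑ p ∈ Pr N, ell p

lemma Pr_eq (N : ℕ) : (N + 1).primesBelow = Pr N := by
  ext p
  simp only [Pr, Nat.mem_primesBelow, Finset.mem_filter, Finset.mem_Ioc]
  exact ⟨fun h => ⟨⟨h.2.pos, by omega⟩, h.2⟩, fun h => ⟨by omega, h.2⟩⟩

lemma Pr_prime {N p : ℕ} (h : p ∈ Pr N) : p.Prime := (Finset.mem_filter.1 h).2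

lemma Pr_mono {N M : ℕ} (h : N ≤ M) : Pr N ⊆ Pr M :=
  Finset.filter_subset_filter _ (Finset.Ioc_subset_Ioc_right h)

lemma Pr_sub (N : ℕ) : Pr N ⊆ Ioc 1 N := fun _ hp =>
  Finset.mem_Ioc.2 ⟨(Pr_prime hp).one_lt, (Finset.mem_Ioc.1 (Finset.mem_filter.1 hp).1).2⟩

lemma sum_Pr_split {y z : ℕ} (h : y ≤ z) (g : ℕ → ℝ) :
    ∑ p ∈ Pr z, g p = ∑ p ∈ Pr y, g p + ∑ p ∈ (Ioc y z).filter Nat.Prime, g p := by
  simp only [Pr, Finset.sum_filter]
  rw [Finset.sum_Ioc_consecutive _ (Nat.zero_le y) h]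

lemma K_eq_exp (N : ℕ) : K (N + 1) = exp (LL N) := by
  rw [K, Pr_eq, LL, exp_sum]
  refine Finset.prod_congr rfl fun p hp => ?_
  rw [ell, exp_neg, exp_log (one_sub_inv_pos (Pr_prime hp))]

lemma ell_bounds {p : ℕ} (hp : p.Prime) :
    0 ≤ ell p - (p : ℝ)⁻¹ ∧ ell p - (p : ℝ)⁻¹ ≤ ((p : ℝ) * (p - 1))⁻¹ := by
  have h0 := one_sub_inv_pos hp
  have h1 : (1 : ℝ) < p := by exact_mod_cast hp.one_lt
  have h2 := log_le_sub_one_of_pos h0
  have h3 := one_sub_inv_le_log_of_pos h0
  have h4 : (1 - (p : ℝ)⁻¹)⁻¹ = 1 + (p : ℝ)⁻¹ + ((p : ℝ) * (p - 1))⁻¹ := by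
    have : (p : ℝ) - 1 ≠ 0 := by linarith
    field_simp
    ring
  unfold ell
  constructor <;> linarith

lemma ell_nonneg {p : ℕ} (hp : p.Prime) : 0 ≤ ell p := by
  have := (ell_bounds hp).1
  have : (0 : ℝ) ≤ (p : ℝ)⁻¹ := by positivity
  linarith

lemma exists_const : ∃ C, Tendsto (fun N : ℕ => LL N - log (log N)) atTop (𝓝 C) := by
  have h1 : CauchySeq fun n : ℕ =>
      ∑ p ∈ Pr (n + 2), (p : ℝ)⁻¹ - log (log ((n + 2 : ℕ) : ℝ)) := by
    refine cauchySeq_of_le_tendsto_0' (fun n => 48 / log ((n + 2 : ℕ) : ℝ)) (fun n m h => ?_) ?_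
    · have := abs_sum_inv_prime_Ioc_sub_le (n + 2) (m + 2) (by omega) (by omega)
      rw [dist_comm, Real.dist_eq, sum_Pr_split (by omega : n + 2 ≤ m + 2)]
      refine le_trans (le_of_eq ?_) this
      congr 1
      ring
    · exact tendsto_const_nhds.div_atTop (tendsto_log_atTop.comp
        (tendsto_natCast_atTop_atTop.comp (tendsto_add_atTop_nat 2)))
  obtain ⟨C1, h1⟩ := cauchySeq_tendsto_of_complete h1
  have h1' := (tendsto_add_atTop_iff_nat
    (f := fun N : ℕ => ∑ p ∈ Pr N, (p : ℝ)⁻¹ - log (log (N : ℝ))) 2).1 h1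
  have h2 := tendsto_atTop_ciSup (f := fun N : ℕ => ∑ p ∈ Pr N, (ell p - (p : ℝ)⁻¹))
    (fun N M h => Finset.sum_le_sum_of_subset_of_nonneg (Pr_mono h)
      fun p hp _ => (ell_bounds (Pr_prime hp)).1)
    ⟨1, by
      rintro _ ⟨N, rfl⟩
      refine le_trans (Finset.sum_le_sum fun p hp => (ell_bounds (Pr_prime hp)).2) ?_
      refine le_trans (Finset.sum_le_sum_of_subset_of_nonneg (Pr_sub N) fun n hn _ => ?_)
        (sum_inv_mul_pred_le N)
      have : (1 : ℝ) < n := by exact_mod_cast (Finset.mem_Ioc.1 hn).1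
      exact inv_nonneg.2 (mul_nonneg (by linarith) (by linarith))⟩
  refine ⟨_, (h1'.add h2).congr fun N => ?_⟩
  rw [LL, Finset.sum_sub_distrib]
  ring

/-- The zeta function on the real axis. -/
noncomputable def Zs (σ : ℝ) : ℝ := ∑' n : ℕ, 1 / (n : ℝ) ^ (1 + σ)

noncomputable def lam (σ : ℝ) (N : ℕ) : ℝ :=
  ∑ p ∈ Pr N, -log (1 - (p : ℝ)⁻¹ * exp (-σ * log p))

noncomputable def GG (σ : ℝ) (N : ℕ) : ℝ := ∑ p ∈ Pr N, ell p * exp (-σ * log p)

lemma v_bounds {σ : ℝ} (hσ : 0 < σ) {p : ℕ} (hp : p.Prime) :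
    0 < exp (-σ * log p) ∧ exp (-σ * log p) ≤ 1 ∧ 1 - exp (-σ * log p) ≤ σ * log p := by
  have h1 : (0 : ℝ) ≤ log p := log_natCast_nonneg p
  have h2 := add_one_le_exp (-σ * log p)
  have := hp.pos
  exact ⟨exp_pos _, exp_le_one_iff.2 (by nlinarith), by linarith⟩

lemma term_pos {σ : ℝ} (hσ : 0 < σ) {p : ℕ} (hp : p.Prime) :
    0 < 1 - (p : ℝ)⁻¹ * exp (-σ * log p) ∧ 1 - (p : ℝ)⁻¹ * exp (-σ * log p) ≤ 1 := by
  obtain ⟨h1, h2, -⟩ := v_bounds hσ hp
  have h0 := one_sub_inv_pos hp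
  have h3 : (0 : ℝ) ≤ (p : ℝ)⁻¹ := by positivity
  constructor <;> nlinarith

lemma lam_tendsto {σ : ℝ} (hσ : 0 < σ) : Tendsto (lam σ) atTop (𝓝 (log (Zs σ))) := by
  let f : ℕ →*₀ ℝ :=
    { toFun := fun n => 1 / (n : ℝ) ^ (1 + σ)
      map_zero' := by rw [Nat.cast_zero, zero_rpow (by linarith), div_zero]
      map_one' := by simp
      map_mul' := fun m n => by
        rw [Nat.cast_mul, mul_rpow (Nat.cast_nonneg m) (Nat.cast_nonneg n), one_div_mul_one_div] }
  have hs : Summable fun n : ℕ => 1 / (n : ℝ) ^ (1 + σ) :=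
    summable_one_div_nat_rpow.2 (by linarith)
  have h1 := EulerProduct.eulerProduct_completely_multiplicative (f := f) hs.norm
  have hZ : 0 < Zs σ := hs.tsum_pos (fun n => by positivity) 1 (by simp)
  have h2 := ((continuousAt_log hZ.ne').tendsto.comp h1).comp (tendsto_add_atTop_nat 1)
  refine h2.congr fun N => ?_
  have hf : ∀ p ∈ Pr N, f p = (p : ℝ)⁻¹ * exp (-σ * log p) := fun p hp => by
    have : (0 : ℝ) < p := by exact_mod_cast (Pr_prime hp).pos
    change 1 / (p : ℝ) ^ (1 + σ) = _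
    rw [rpow_add this, rpow_one, one_div, mul_inv, rpow_def_of_pos this, ← exp_neg]
    congr 2
    ring
  simp only [Function.comp_apply, Pr_eq, lam]
  rw [log_prod fun p hp => by
    rw [hf p hp]
    exact inv_ne_zero (term_pos hσ (Pr_prime hp)).1.ne']
  exact Finset.sum_congr rfl fun p hp => by rw [log_inv, hf p hp]

lemma lam_le {σ : ℝ} (hσ : 0 < σ) (N : ℕ) : lam σ N ≤ log (Zs σ) := by
  refine Monotone.ge_of_tendsto (fun N M h => ?_) (lam_tendsto hσ) N
  refine Finset.sum_le_sum_of_subset_of_nonneg (Pr_mono h) fun p hp _ => ?_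
  obtain ⟨h1, h2⟩ := term_pos hσ (Pr_prime hp)
  exact neg_nonneg.2 (log_nonpos h1.le h2)

lemma log_cmp {t v : ℝ} (ht0 : 0 ≤ t) (ht : t < 1) (hv0 : 0 ≤ v) (hv : v ≤ 1) :
    -log (1 - t * v) ≤ -log (1 - t) * v ∧
      -log (1 - t) * v ≤ -log (1 - t * v) + (1 - v) * (t ^ 2 / (1 - t)) := by
  have h0 : 0 < 1 - t := by linarith
  have h1 : 0 < 1 - t * v := by nlinarith
  constructor
  · have h2 := rpow_one_add_le_one_add_mul_self (s := -t) (by linarith) hv0 hv
    have h3 := log_le_log (rpow_pos_of_pos (by linarith) v) h2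
    rw [log_rpow (by linarith), show 1 + -t = 1 - t by ring,
      show 1 + v * -t = 1 - t * v by ring] at h3
    linarith
  · have h2 := log_le_sub_one_of_pos (div_pos h1 h0)
    rw [log_div h1.ne' h0.ne'] at h2
    have h3 := mul_le_mul_of_nonneg_left (log_le_sub_one_of_pos h0) (sub_nonneg.2 hv)
    have h4 : (1 - t * v) / (1 - t) - 1 = (1 - v) * (t ^ 2 / (1 - t)) + (1 - v) * t := by
      field_simp
      ring
    linarith

lemma GG_bounds {σ : ℝ} (hσ : 0 < σ) (N : ℕ) :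
    lam σ N ≤ GG σ N ∧ GG σ N ≤ lam σ N + 8 * σ := by
  have key : ∀ p ∈ Pr N, -log (1 - (p : ℝ)⁻¹ * exp (-σ * log p)) ≤ ell p * exp (-σ * log p) ∧
      ell p * exp (-σ * log p) ≤ -log (1 - (p : ℝ)⁻¹ * exp (-σ * log p)) +
        σ * (log p / (p * (p - 1))) := by
    intro p hp
    have hp' := Pr_prime hp
    obtain ⟨h1, h2, h3⟩ := v_bounds hσ hp'
    have h0 := one_sub_inv_pos hp'
    have h4 : (1 : ℝ) < p := by exact_mod_cast hp'.one_lt
    obtain ⟨h5, h6⟩ := log_cmp (t := (p : ℝ)⁻¹) (by positivity) (by linarith) h1.le h2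
    refine ⟨h5, h6.trans (add_le_add_right ?_ _)⟩
    have h7 : ((p : ℝ)⁻¹) ^ 2 / (1 - (p : ℝ)⁻¹) = ((p : ℝ) * (p - 1))⁻¹ := by
      have : (p : ℝ) - 1 ≠ 0 := by linarith
      field_simp
    rw [h7, div_eq_mul_inv, ← mul_assoc]
    exact mul_le_mul_of_nonneg_right h3 (inv_nonneg.2 (mul_nonneg (by linarith) (by linarith)))
  refine ⟨Finset.sum_le_sum fun p hp => (key p hp).1,
    (Finset.sum_le_sum fun p hp => (key p hp).2).trans ?_⟩
  rw [Finset.sum_add_distrib, ← Finset.mul_sum, mul_comm 8]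
  refine add_le_add_right (mul_le_mul_of_nonneg_left ?_ hσ.le) _
  refine le_trans (Finset.sum_le_sum_of_subset_of_nonneg (Pr_sub N) fun n hn _ => ?_)
    (sum_log_div_mul_pred_le N)
  have : (1 : ℝ) < n := by exact_mod_cast (Finset.mem_Ioc.1 hn).1
  exact div_nonneg (log_natCast_nonneg n) (mul_nonneg (by linarith) (by linarith))

noncomputable def AA (k : ℕ) : ℝ := LL (2 ^ (k + 1)) - LL (2 ^ k)

lemma AA_eq (k : ℕ) : AA k = ∑ p ∈ (Ioc (2 ^ k) (2 ^ (k + 1))).filter Nat.Prime, ell p := by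
  rw [AA, LL, LL, sum_Pr_split (Nat.pow_le_pow_right two_pos (Nat.le_succ k))]
  ring

lemma AA_nonneg (k : ℕ) : 0 ≤ AA k := by
  rw [AA_eq]
  exact Finset.sum_nonneg fun p hp => ell_nonneg (Finset.mem_filter.1 hp).2

lemma Pr_one : Pr 1 = ∅ := by decide

lemma dyadic {σ : ℝ} (hσ : 0 < σ) (n : ℕ) :
    exp (-σ * log 2) * ∑ k ∈ range n, AA k * exp (-σ * log 2) ^ k ≤ GG σ (2 ^ n) ∧
      GG σ (2 ^ n) ≤ ∑ k ∈ range n, AA k * exp (-σ * log 2) ^ k := by
  induction n with
  | zero => simp [GG, Pr_one]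
  | succ n ih =>
    have hx : ∀ k : ℕ, exp (-σ * log 2) ^ k = exp (-σ * log ((2 ^ k : ℕ) : ℝ)) := fun k => by
      rw [← exp_nat_mul, Nat.cast_pow, log_pow]
      congr 1
      push_cast
      ring
    have hmono : ∀ {a b : ℕ}, 0 < a → a ≤ b → exp (-σ * log b) ≤ exp (-σ * log a) :=
      fun {a b} ha hab => exp_le_exp.2 (by
        have := log_le_log (by exact_mod_cast ha : (0 : ℝ) < a) (by exact_mod_cast hab : (a : ℝ) ≤ b)
        nlinarith)
    rw [GG, sum_Pr_split (Nat.pow_le_pow_right two_pos (Nat.le_succ n)), Finset.sum_range_succ,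
      mul_add, mul_left_comm, ← pow_succ', AA_eq n, Finset.sum_mul, Finset.sum_mul, hx, hx]
    refine ⟨add_le_add ih.1 (Finset.sum_le_sum fun p hp => ?_),
      add_le_add ih.2 (Finset.sum_le_sum fun p hp => ?_)⟩
    · obtain ⟨h1, h2⟩ := Finset.mem_filter.1 hp
      exact mul_le_mul_of_nonneg_left (hmono h2.pos (Finset.mem_Ioc.1 h1).2) (ell_nonneg h2)
    · obtain ⟨h1, h2⟩ := Finset.mem_filter.1 hp
      exact mul_le_mul_of_nonneg_left (hmono (by positivity) (Finset.mem_Ioc.1 h1).1.le)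
        (ell_nonneg h2)

lemma abel_bounds {σ x : ℝ} (hσ : 0 < σ) (hx : x = exp (-σ * log 2)) :
    x * log (Zs σ) + log (1 - x) ≤ x * ∑' k : ℕ, (AA k - 1 / ((k : ℝ) + 1)) * x ^ k ∧
      x * ∑' k : ℕ, (AA k - 1 / ((k : ℝ) + 1)) * x ^ k ≤ log (Zs σ) + 8 * σ + log (1 - x) := by
  have hx0 : 0 < x := hx ▸ exp_pos _
  have hx1 : x < 1 := hx ▸ exp_lt_one_iff.2 (by nlinarith [log_pos (one_lt_two (α := ℝ))])
  have hb : ∀ n, ∑ k ∈ range n, AA k * x ^ k ≤ (log (Zs σ) + 8 * σ) / x := fun n => by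
    rw [le_div_iff₀' hx0]
    have h1 := (dyadic hσ n).1
    rw [← hx] at h1
    linarith [(GG_bounds hσ (2 ^ n)).2, lam_le hσ (2 ^ n)]
  have hnn : ∀ k, 0 ≤ AA k * x ^ k := fun k => mul_nonneg (AA_nonneg k) (by positivity)
  have hs := summable_of_sum_range_le hnn hb
  have hup : ∑' k, AA k * x ^ k ≤ (log (Zs σ) + 8 * σ) / x :=
    le_of_tendsto' hs.hasSum.tendsto_sum_nat hb
  have hlo : log (Zs σ) ≤ ∑' k, AA k * x ^ k := by
    refine le_of_tendsto_of_tendsto' ((lam_tendsto hσ).comp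
      (tendsto_pow_atTop_atTop_of_one_lt (one_lt_two (α := ℕ)))) hs.hasSum.tendsto_sum_nat
      fun n => ?_
    have h1 := (dyadic hσ n).2
    rw [← hx] at h1
    exact (GG_bounds hσ (2 ^ n)).1.trans h1
  have h2 := (hs.hasSum.mul_left x).sub
    (hasSum_pow_div_log_of_abs_lt_one (x := x) (by rwa [abs_of_pos hx0]))
  have h3 : x * ∑' k : ℕ, (AA k - 1 / ((k : ℝ) + 1)) * x ^ k =
      x * ∑' k, AA k * x ^ k - -log (1 - x) := by
    rw [← h2.tsum_eq, ← tsum_mul_left]
    refine tsum_congr fun k => ?_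
    ring
  rw [le_div_iff₀' hx0] at hup
  have := mul_le_mul_of_nonneg_left hlo hx0.le
  rw [h3]
  constructor <;> linarith

lemma const_eq {C : ℝ} (hC : Tendsto (fun N : ℕ => LL N - log (log N)) atTop (𝓝 C)) :
    C = eulerMascheroniConstant := by
  have hl2 : 0 < log 2 := log_pos one_lt_two
  have h1 : Tendsto (fun n => ∑ k ∈ range n, (AA k - 1 / ((k : ℝ) + 1))) atTop
      (𝓝 (C + log (log 2) - eulerMascheroniConstant)) := by
    have h2 := ((hC.comp (tendsto_pow_atTop_atTop_of_one_lt (one_lt_two (α := ℕ)))).add_const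
      (log (log 2))).sub tendsto_harmonic_sub_log
    refine h2.congr' ?_
    filter_upwards [eventually_gt_atTop 0] with n hn
    have hn' : (0 : ℝ) < n := by exact_mod_cast hn
    have h3 : ∑ k ∈ range n, AA k = LL (2 ^ n) := by
      rw [show (∑ k ∈ range n, AA k) = _ from Finset.sum_range_sub (fun k => LL (2 ^ k)) n]
      simp [LL, Pr_one]
    have h4 : ((harmonic n : ℚ) : ℝ) = ∑ k ∈ range n, 1 / ((k : ℝ) + 1) := by
      simp [harmonic]
    simp only [Function.comp_apply]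
    rw [Finset.sum_sub_distrib, h3, h4, Nat.cast_pow, log_pow, Nat.cast_ofNat,
      log_mul hn'.ne' hl2.ne']
    ring
  have hx : Tendsto (fun σ : ℝ => exp (-σ * log 2)) (𝓝[>] 0) (𝓝 1) := by
    have : Continuous fun σ : ℝ => exp (-σ * log 2) := by fun_prop
    simpa using (this.tendsto 0).mono_left nhdsWithin_le_nhds
  have hx' : Tendsto (fun σ : ℝ => exp (-σ * log 2)) (𝓝[>] 0) (𝓝[<] 1) :=
    tendsto_nhdsWithin_iff.2 ⟨hx, eventually_mem_nhdsWithin.mono fun σ (hσ : 0 < σ) =>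
      exp_lt_one_iff.2 (by nlinarith)⟩
  have h2 := hx.mul ((Real.tendsto_tsum_powerSeries_nhdsWithin_lt h1).comp hx')
  have hZ : Tendsto (fun σ : ℝ => log (Zs σ) + log σ) (𝓝[>] 0) (𝓝 0) := by
    have h3 : Tendsto (fun σ : ℝ => 1 + σ) (𝓝[>] 0) (𝓝[>] 1) := by
      refine tendsto_nhdsWithin_iff.2 ⟨?_, eventually_mem_nhdsWithin.mono fun σ (hσ : 0 < σ) =>
        lt_add_of_pos_right 1 hσ⟩
      have : Continuous fun σ : ℝ => 1 + σ := by fun_prop
      simpa using (this.tendsto 0).mono_left nhdsWithin_le_nhds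
    have h4 := (continuousAt_log one_ne_zero).tendsto.comp (tendsto_sub_mul_tsum_nat_rpow.comp h3)
    rw [log_one] at h4
    refine h4.congr' (eventually_mem_nhdsWithin.mono fun σ (hσ : 0 < σ) => ?_)
    have hZ : 0 < Zs σ := (summable_one_div_nat_rpow.2 (by linarith)).tsum_pos
      (fun n => by positivity) 1 (by simp)
    simp only [Function.comp_apply, add_sub_cancel_left]
    exact (log_mul hσ.ne' hZ.ne').trans (add_comm _ _)
  have hD : Tendsto (fun σ : ℝ => (1 - exp (-σ * log 2)) / σ) (𝓝[>] 0) (𝓝 (log 2)) := by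
    have h3 : HasDerivAt (fun σ : ℝ => 1 - exp (-σ * log 2)) (log 2) 0 := by
      have := (((hasDerivAt_id (0 : ℝ)).neg.mul_const (log 2)).exp).const_sub 1
      simpa using this
    have h4 := (hasDerivAt_iff_tendsto_slope_zero.1 h3).mono_left (nhdsGT_le_nhdsNE 0)
    refine h4.congr fun σ => ?_
    simp [div_eq_inv_mul]
  have hW : Tendsto (fun σ : ℝ => log (1 - exp (-σ * log 2)) - log σ) (𝓝[>] 0)
      (𝓝 (log (log 2))) := by
    refine ((continuousAt_log hl2.ne').tendsto.comp hD).congr'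
      (eventually_mem_nhdsWithin.mono fun σ (hσ : 0 < σ) => ?_)
    have : exp (-σ * log 2) < 1 := exp_lt_one_iff.2 (by nlinarith)
    exact log_div (by linarith) hσ.ne'
  have hS : Tendsto (fun σ : ℝ => log σ * σ) (𝓝[>] 0) (𝓝 0) := by
    simpa using tendsto_log_mul_rpow_nhdsGT_zero one_pos
  have hI : Tendsto (fun σ : ℝ => σ) (𝓝[>] 0) (𝓝 0) := nhdsWithin_le_nhds
  have hlo := ((hx.mul hZ).add hW).add (hD.mul hS)
  have hup := (hZ.add hW).add (hI.const_mul 8)
  simp only [mul_zero, zero_add, add_zero] at hlo hup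
  have h5 := tendsto_of_tendsto_of_tendsto_of_le_of_le' hlo hup
    (f := fun σ : ℝ => exp (-σ * log 2) *
      ∑' k : ℕ, (AA k - 1 / ((k : ℝ) + 1)) * exp (-σ * log 2) ^ k)
    (eventually_mem_nhdsWithin.mono fun σ (hσ : 0 < σ) => by
      refine le_trans (le_of_eq ?_) (abel_bounds hσ rfl).1
      field_simp
      ring)
    (eventually_mem_nhdsWithin.mono fun σ (hσ : 0 < σ) => by
      refine (abel_bounds hσ rfl).2.trans (le_of_eq ?_)
      ring)
  have := tendsto_nhds_unique h2 h5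
  linarith

theorem mertens_three : Tendsto (fun N : ℕ => K N / log N) atTop
    (𝓝 (exp eulerMascheroniConstant)) := by
  obtain ⟨C, hC⟩ := exists_const
  obtain rfl := const_eq hC
  have h1 : Tendsto (fun N : ℕ => K (N + 1) / log N) atTop (𝓝 (exp eulerMascheroniConstant)) := by
    refine ((continuous_exp.tendsto _).comp hC).congr' ?_
    filter_upwards [eventually_gt_atTop 1] with N hN
    simp only [Function.comp_apply]
    rw [exp_sub, exp_log (log_pos (by exact_mod_cast hN)), K_eq_exp]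
  have h2 : Tendsto (fun N : ℕ => 1 - (N : ℝ)⁻¹) atTop (𝓝 1) := by
    simpa using tendsto_inv_atTop_nhds_zero_nat (𝕜 := ℝ).const_sub 1
  have h3 := h2.mul h1
  rw [one_mul] at h3
  refine tendsto_of_tendsto_of_tendsto_of_le_of_le' h3 h1 ?_ ?_
  all_goals
    filter_upwards [eventually_gt_atTop 1] with N hN
    have hl : 0 < log (N : ℝ) := log_pos (by exact_mod_cast hN)
    have hN' : (0 : ℝ) ≤ (N : ℝ)⁻¹ := by positivity
    have hK := K_pos N
  · rw [← mul_div_assoc]
    refine div_le_div_of_nonneg_right ?_ hl.le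
    by_cases hp : N.Prime
    · rw [K_succ_prime hp, mul_inv_cancel_left₀ (one_sub_inv_pos hp).ne']
    · rw [K_succ_not_prime hp]
      nlinarith
  · refine div_le_div_of_nonneg_right ?_ hl.le
    by_cases hp : N.Prime
    · rw [K_succ_prime hp]
      exact le_mul_of_one_le_left hK.le ((one_le_inv₀ (one_sub_inv_pos hp)).2 (by linarith))
    · rw [K_succ_not_prime hp]

end Pool.Agent.Work.MP_cda74c_nt.Hedge
end

-- merged part: Pool.Agent.Work.MP_cda74c_nt.Hedge.Asym
section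
/-!
The asymptotic size of the largest prime.
-/

namespace Pool.Agent.Work.MP_cda74c_nt.Hedge

open Filter Topology Real Pool.Agent.Lib.ANT Pool.Agent.Work.MP_cda74c_nt

lemma prime_near {c : ℝ} (h0 : 0 < c) (h1 : c < 1) :
    ∀ᶠ x : ℝ in atTop, ∃ p : ℕ, p.Prime ∧ c * x < p ∧ (p : ℝ) ≤ x := by
  have h2 := tendsto_theta_div.sub
    ((tendsto_theta_div.comp (tendsto_id.const_mul_atTop h0)).const_mul c)
  filter_upwards [h2.eventually (lt_mem_nhds (show (0 : ℝ) < 1 - c * 1 by linarith)),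
    eventually_gt_atTop 0] with x h3 hx
  by_contra hcon
  have h4 : Chebyshev.theta x ≤ Chebyshev.theta (c * x) := by
    refine Finset.sum_le_sum_of_subset_of_nonneg (fun p hp => ?_)
      fun p _ _ => log_natCast_nonneg p
    obtain ⟨h5, h6⟩ := Finset.mem_filter.1 hp
    obtain ⟨h7, h8⟩ := Finset.mem_Ioc.1 h5
    refine Finset.mem_filter.2 ⟨Finset.mem_Ioc.2 ⟨h7, Nat.le_floor ?_⟩, h6⟩
    by_contra h9
    exact hcon ⟨p, h6, not_le.1 h9, (Nat.le_floor_iff hx.le).1 h8⟩
  simp only [Function.comp_apply, id] at h3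
  have h5 : c * (Chebyshev.theta (c * x) / (c * x)) = Chebyshev.theta (c * x) / x := by
    field_simp
  rw [h5, ← sub_div] at h3
  exact absurd (div_nonpos_of_nonpos_of_nonneg (by linarith) hx.le) (not_le.2 h3)

lemma log_nat_atTop : Tendsto (fun r : ℕ => log r) atTop atTop :=
  tendsto_log_atTop.comp tendsto_natCast_atTop_atTop

lemma rlog_atTop : Tendsto (fun r : ℕ => (r : ℝ) * log r) atTop atTop :=
  tendsto_natCast_atTop_atTop.atTop_mul_atTop₀ log_nat_atTop

lemma pi_small : Tendsto (fun r : ℕ => (r.primesBelow.card : ℝ) / r) atTop (𝓝 0) := by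
  have h1 := (tendsto_primeCounting_mul_log_div.comp tendsto_natCast_atTop_atTop).div_atTop
    log_nat_atTop
  refine squeeze_zero' (Eventually.of_forall fun r => by positivity) ?_ h1
  filter_upwards [eventually_gt_atTop 1] with r hr
  have hl : 0 < log (r : ℝ) := log_pos (by exact_mod_cast hr)
  have h2 : r.primesBelow.card ≤ r.primeCounting := by
    rw [Nat.primesBelow_card_eq_primeCounting']
    exact Nat.monotone_primeCounting' (Nat.le_succ r)
  simp only [Function.comp_apply, Nat.floor_natCast]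
  rw [div_right_comm, mul_div_cancel_right₀ _ hl.ne']
  exact div_le_div_of_nonneg_right (by exact_mod_cast h2) (Nat.cast_nonneg r)

lemma supply : Tendsto (fun r : ℕ => K r * (r - (r.primesBelow.card : ℝ)) / (r * log r)) atTop
    (𝓝 (exp eulerMascheroniConstant)) := by
  have h1 := mertens_three.mul (pi_small.const_sub 1)
  rw [sub_zero, mul_one] at h1
  refine h1.congr' ?_
  filter_upwards [eventually_gt_atTop 1] with r hr
  have hl : 0 < log (r : ℝ) := log_pos (by exact_mod_cast hr)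
  have h0 : (0 : ℝ) < r := by exact_mod_cast lt_trans one_pos hr
  field_simp

lemma lower {P : ℕ → ℕ} (hP : ∀ r, 1 ≤ r → P r ∈ upperBounds (Primes r)) {a : ℝ}
    (ha : a < exp eulerMascheroniConstant) : ∀ᶠ r : ℕ in atTop, a < P r / (r * log r) := by
  have hg := exp_pos eulerMascheroniConstant
  obtain ⟨c, h0, h1, h2⟩ : ∃ c : ℝ, 0 < c ∧ c < 1 ∧ a < c * exp eulerMascheroniConstant := by
    obtain ⟨c, h3, h4⟩ := exists_between
      (max_lt one_pos ((div_lt_one hg).2 ha) : max 0 (a / exp eulerMascheroniConstant) < 1)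
    exact ⟨c, (le_max_left _ _).trans_lt h3, h4,
      (div_lt_iff₀ hg).1 ((le_max_right _ _).trans_lt h3)⟩
  have hB : Tendsto (fun r : ℕ => K r * (r - (r.primesBelow.card : ℝ))) atTop atTop := by
    refine (supply.pos_mul_atTop hg rlog_atTop).congr' ?_
    filter_upwards [rlog_atTop.eventually_gt_atTop 0] with r hr
    exact div_mul_cancel₀ _ hr.ne'
  filter_upwards [hB.eventually (prime_near h0 h1),
    (hB.const_mul_atTop h0).eventually_ge_atTop 2, (supply.const_mul c).eventually (lt_mem_nhds h2),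
    rlog_atTop.eventually_gt_atTop 0, eventually_ge_atTop 1] with r h3 h4 h5 h6 hr
  obtain ⟨p, hp, h7, h8⟩ := h3
  have h9 : p ≠ 2 := by
    rintro rfl
    push_cast at h7
    linarith
  have h10 : (p : ℝ) ≤ P r := by exact_mod_cast hP r hr (odd_mem hr hp h9 h8)
  refine h5.trans_le ?_
  rw [← mul_div_assoc]
  exact div_le_div_of_nonneg_right (by linarith) h6.le

theorem largest : ∃ P : ℕ → ℕ, (∀ r, 1 ≤ r → IsGreatest (Primes r) (P r)) ∧
    Tendsto (fun r : ℕ => (P r : ℝ) / (r * log r)) atTop (𝓝 (exp eulerMascheroniConstant)) := by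
  have hg := exp_pos eulerMascheroniConstant
  choose! P hP1 hP2 using fun r (hr : 1 ≤ r) => exists_greatest hr
  have hlow := fun a ha => lower (P := P) (fun r hr => (hP1 r hr).2) (a := a) ha
  refine ⟨P, hP1, tendsto_order.2 ⟨hlow, fun b hb => ?_⟩⟩
  have hPr : Tendsto (fun r : ℕ => (P r : ℝ)) atTop atTop := by
    refine tendsto_atTop_mono' _ ?_ (rlog_atTop.const_mul_atTop (half_pos hg))
    filter_upwards [hlow _ (half_lt_self hg), rlog_atTop.eventually_gt_atTop 0] with r h1 h2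
    exact ((lt_div_iff₀ h2).1 h1).le
  have hL : Tendsto (fun r : ℕ => log (P r)) atTop atTop := tendsto_log_atTop.comp hPr
  have hu : Tendsto (fun r : ℕ => K (P r) / log (P r)) atTop (𝓝 (exp eulerMascheroniConstant)) :=
    mertens_three.comp (tendsto_natCast_atTop_iff.1 hPr)
  have hw : Tendsto (fun r : ℕ => log (log (P r)) / log (P r) +
      log (2 * (K (P r) / log (P r))) / log (P r)) atTop (𝓝 0) := by
    have h1 := isLittleO_log_id_atTop.tendsto_div_nhds_zero.comp hL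
    have h2 := ((continuousAt_log (mul_pos two_pos hg).ne').tendsto.comp
      (hu.const_mul 2)).div_atTop hL
    simpa using h1.add h2
  have hh := (hu.div (hw.const_sub 1) (by norm_num)).add rlog_atTop.inv_tendsto_atTop
  rw [sub_zero, div_one, add_zero] at hh
  filter_upwards [hh.eventually (gt_mem_nhds hb), hw.eventually (gt_mem_nhds one_pos),
    hL.eventually_gt_atTop 0, eventually_gt_atTop 1] with r h1 h2 h3 hr
  refine lt_of_le_of_lt ?_ h1
  have hl : 0 < log (r : ℝ) := log_pos (by exact_mod_cast hr)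
  have hr1 : (1 : ℝ) < r := by exact_mod_cast hr
  have hK := one_le_K (P r)
  have h4 := hP2 r hr.le
  have h5 : (0 : ℝ) < P r := by exact_mod_cast (hP1 r hr.le).1.1.pos
  have h6 : log (P r) ≤ log r + log (log (P r)) + log (2 * (K (P r) / log (P r))) := by
    rw [← log_mul (by linarith) h3.ne', ← log_mul (by positivity) (by positivity)]
    refine log_le_log h5 ?_
    rw [show (r : ℝ) * log (P r) * (2 * (K (P r) / log (P r))) = 2 * (r * K (P r)) by field_simp]
    nlinarith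
  obtain ⟨w, hw'⟩ : ∃ w, w = log (log (P r)) / log (P r) +
    log (2 * (K (P r) / log (P r))) / log (P r) := ⟨_, rfl⟩
  simp only [Pi.div_apply, Pi.inv_apply, ← hw'] at h2 ⊢
  have h7 : (1 - w) * log (P r) ≤ log r := by
    rw [hw', ← add_div, sub_mul, div_mul_cancel₀ _ h3.ne']
    linarith
  have h8 : K (P r) / log r ≤ K (P r) / log (P r) / (1 - w) := by
    rw [div_div, mul_comm]
    exact div_le_div_of_nonneg_left (by linarith) (mul_pos (by linarith) h3) h7
  have h9 : (P r : ℝ) / (r * log r) ≤ (r * K (P r) + 1) / (r * log r) :=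
    div_le_div_of_nonneg_right (by linarith) (by positivity)
  rw [add_div, mul_div_mul_left _ _ (by linarith), one_div] at h9
  linarith

end Pool.Agent.Work.MP_cda74c_nt.Hedge
end
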