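import Mathlib
import Pool.Agent.Work.MP_cda74c_nt.Final

-- merged part: Pool.Agent.Work.MP_cda74c_nt.Hedge.Tail
section
/-!
Tail bound for families of residue classes with distinct moduli and bounded overlap.
-/

namespace Pool.Agent.Work.MP_cda74c_nt.Hedge

open Finset Pool.Agent.Work.MP_cda74c_nt

/-- Every natural number lies in at most `κ` of the classes `a m mod m`, `m ∈ T`. -/
def Bd (κ : ℕ) (T : Finset ℕ) (a : ℕ → ℕ) : Prop :=
  ∀ x : ℕ, (T.filter fun m => x ≡ a m [MOD m]).card ≤ κ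

lemma Bd.mono {κ : ℕ} {T S : Finset ℕ} {a : ℕ → ℕ} (h : Bd κ T a) (hS : S ⊆ T) : Bd κ S a :=
  fun x => (Finset.card_le_card (Finset.filter_subset_filter _ hS)).trans (h x)

/-- A maximal pairwise coprime subfamily. -/
lemma exists_hub {κ : ℕ} {H : Finset ℕ} {b : ℕ → ℕ} (hD : Bd κ H b) (h0 : ∀ n ∈ H, n ≠ 0)
    (h1 : ∀ n ∈ H, ∃ p, p.Prime ∧ p ∣ n) :
    ∃ C ⊆ H, C.card ≤ κ ∧ ∀ n ∈ H, ∃ c ∈ C, ∃ p, p.Prime ∧ p ∣ c ∧ p ∣ n := by
  classical
  obtain ⟨C, hC, hmax⟩ := Finset.exists_max_image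
    (H.powerset.filter fun C : Finset ℕ => (C : Set ℕ).Pairwise Nat.Coprime) Finset.card
    ⟨∅, by simp⟩
  obtain ⟨hCH, hCp⟩ := Finset.mem_filter.1 hC
  have hCH' := Finset.mem_powerset.1 hCH
  refine ⟨C, hCH', ?_, fun n hn => ?_⟩
  · obtain ⟨u, hu⟩ := Nat.chineseRemainderOfFinset b id C (fun n hn => h0 n (hCH' hn)) hCp
    refine le_trans (Finset.card_le_card fun c hc => ?_) (hD u)
    exact Finset.mem_filter.2 ⟨hCH' hc, hu c hc⟩
  · by_cases hnC : n ∈ C
    · obtain ⟨p, hp, hpn⟩ := h1 n hn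
      exact ⟨n, hnC, p, hp, hpn, hpn⟩
    · by_contra hcon
      have hcop : ∀ c ∈ C, Nat.Coprime c n := by
        intro c hc
        by_contra hnc
        obtain ⟨p, hp1, hp2⟩ := Nat.exists_prime_and_dvd hnc
        exact hcon ⟨c, hc, p, hp1, hp2.trans (Nat.gcd_dvd_left _ _),
          hp2.trans (Nat.gcd_dvd_right _ _)⟩
      have hmem : insert n C ∈
          H.powerset.filter fun C : Finset ℕ => (C : Set ℕ).Pairwise Nat.Coprime := by
        refine Finset.mem_filter.2 ⟨Finset.mem_powerset.2 (Finset.insert_subset hn hCH'), ?_⟩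
        rw [Finset.coe_insert]
        exact hCp.insert fun c hc _ => ⟨(hcop c hc).symm, hcop c hc⟩
      have := hmax _ hmem
      rw [Finset.card_insert_of_notMem hnC] at this
      omega

lemma treeK (κ z w : ℕ) (S : ℝ) (hκ : 0 < κ) (hz : 0 < z)
    (hS : ∀ N : Finset ℕ, (∀ n ∈ N, n ∈ w.smoothNumbers) → ∑ n ∈ N, (n : ℝ)⁻¹ ≤ S) (j : ℕ) :
    ∀ (H : Finset ℕ) (b : ℕ → ℕ), Bd κ H b → (∀ n ∈ H, n ∈ w.smoothNumbers) →
      (∀ n ∈ H, ∃ p, p.Prime ∧ p ∣ n ∧ z ≤ p) → (∀ n ∈ H, Om n ≤ j) →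
      ∑ n ∈ H, (n : ℝ)⁻¹ ≤ (κ ^ j * j.factorial : ℕ) * S / z := by
  classical
  have hS0 : 0 ≤ S := by simpa using hS ∅ (by simp)
  have hzr : (0 : ℝ) < z := by exact_mod_cast hz
  induction j with
  | zero =>
    intro H b _ hsm hp hΩ
    have : H = ∅ := by
      rw [Finset.eq_empty_iff_forall_notMem]
      intro n hn
      obtain ⟨p, hp1, ⟨k, hk⟩, _⟩ := hp n hn
      have h0 := hΩ n hn
      have hn0 : n ≠ 0 := (hsm n hn).1
      have hk0 : k ≠ 0 := by rintro rfl; exact hn0 (by simpa using hk)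
      unfold Om at h0
      rw [hk, ArithmeticFunction.cardFactors_mul hp1.ne_zero hk0,
        ArithmeticFunction.cardFactors_apply_prime hp1] at h0
      omega
    rw [this]
    simp only [Finset.sum_empty]
    positivity
  | succ j ih =>
    intro H b hD hsm hp hΩ
    obtain ⟨C, hCH, hCκ, hhub⟩ := exists_hub hD (fun n hn => (hsm n hn).1)
      (fun n hn => (hp n hn).imp fun p h => ⟨h.1, h.2.1⟩)
    set P : Finset ℕ := C.biUnion Nat.primeFactors with hP
    have hcover : ∀ n ∈ H, ∃ p ∈ P, p ∣ n := by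
      intro n hn
      obtain ⟨c, hc, p, hp1, hp2, hp3⟩ := hhub n hn
      exact ⟨p, Finset.mem_biUnion.2
        ⟨c, hc, Nat.mem_primeFactors.mpr ⟨hp1, hp2, (hsm c (hCH hc)).1⟩⟩, hp3⟩
    have hle : ∑ n ∈ H, (n : ℝ)⁻¹
        ≤ ∑ p ∈ P, ∑ n ∈ H.filter (fun n => p ∣ n), (n : ℝ)⁻¹ := by
      have : ∑ p ∈ P, ∑ n ∈ H.filter (fun n => p ∣ n), (n : ℝ)⁻¹
          = ∑ n ∈ H, ∑ p ∈ P, if p ∣ n then (n : ℝ)⁻¹ else 0 := by
        rw [Finset.sum_comm]
        exact Finset.sum_congr rfl fun p _ => Finset.sum_filter _ _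
      rw [this]
      refine Finset.sum_le_sum fun n hn => ?_
      obtain ⟨p, hp1, hp2⟩ := hcover n hn
      have := Finset.single_le_sum (f := fun p => if p ∣ n then (n : ℝ)⁻¹ else 0)
        (fun q _ => by split_ifs <;> positivity) hp1
      simpa [hp2] using this
    have heach : ∀ p ∈ P, ∑ n ∈ H.filter (fun n => p ∣ n), (n : ℝ)⁻¹ ≤
        (κ ^ j * j.factorial : ℕ) * S / z := by
      intro p hpm
      obtain ⟨c₀, -, hc₀⟩ := Finset.mem_biUnion.1 hpm
      have hpp : p.Prime := Nat.prime_of_mem_primeFactors hc₀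
      have hpr : (0 : ℝ) < p := by exact_mod_cast hpp.pos
      by_cases hpz : z ≤ p
      · rw [sum_div_prime hpp _ (fun n hn => (Finset.mem_filter.mp hn).2)]
        have h1 := hS ((H.filter (fun n => p ∣ n)).image (fun n => n / p)) (by
          intro n' hn'
          obtain ⟨n, hn, rfl⟩ := Finset.mem_image.mp hn'
          have hn1 := Finset.mem_filter.mp hn
          exact Nat.mem_smoothNumbers_of_dvd (hsm n hn1.1) (Nat.div_dvd_of_dvd hn1.2))
        have h2 : (p : ℝ)⁻¹ ≤ (z : ℝ)⁻¹ := inv_anti₀ hzr (by exact_mod_cast hpz)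
        have h3 : (1 : ℝ) ≤ (κ ^ j * j.factorial : ℕ) := by
          exact_mod_cast Nat.mul_pos (pow_pos hκ j) j.factorial_pos
        calc (p : ℝ)⁻¹ * _ ≤ (p : ℝ)⁻¹ * S := mul_le_mul_of_nonneg_left h1 (by positivity)
          _ ≤ (z : ℝ)⁻¹ * S := mul_le_mul_of_nonneg_right h2 hS0
          _ = 1 * S / z := by ring
          _ ≤ (κ ^ j * j.factorial : ℕ) * S / z := by gcongr
      · have hmaps : ∀ n ∈ H.filter (fun n => p ∣ n), b n % p ∈ range p := fun n _ =>
          Finset.mem_range.mpr (Nat.mod_lt _ hpp.pos)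
        rw [← Finset.sum_fiberwise_of_maps_to hmaps]
        have hfib : ∀ c ∈ range p,
            ∑ n ∈ (H.filter (fun n => p ∣ n)).filter (fun n => b n % p = c), (n : ℝ)⁻¹
              ≤ (p : ℝ)⁻¹ * ((κ ^ j * j.factorial : ℕ) * S / z) := by
          intro c _
          rw [sum_div_prime hpp _
            (fun n hn => (Finset.mem_filter.mp (Finset.mem_filter.mp hn).1).2)]
          refine mul_le_mul_of_nonneg_left ?_ (by positivity)
          have hmem : ∀ n' ∈ ((H.filter (fun n => p ∣ n)).filter (fun n => b n % p = c)).image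
              (fun n => n / p), p * n' ∈ H ∧ b (p * n') % p = c := by
            intro n' hn'
            obtain ⟨n, hn, rfl⟩ := Finset.mem_image.mp hn'
            have hn1 := Finset.mem_filter.mp hn
            have hn2 := Finset.mem_filter.mp hn1.1
            rw [Nat.mul_div_cancel' hn2.2]
            exact ⟨hn2.1, hn1.2⟩
          refine ih _ (fun n' => b (p * n') / p) ?_ ?_ ?_ ?_
          · intro x
            refine le_trans (Finset.card_le_card_of_injOn (fun n' => p * n') ?_ ?_)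
              (hD (p * x + c))
            · intro n1 h1
              obtain ⟨h1', hx1⟩ := Finset.mem_filter.1 (Finset.mem_coe.1 h1)
              obtain ⟨h1a, h1b⟩ := hmem n1 h1'
              refine Finset.mem_coe.2 (Finset.mem_filter.2 ⟨h1a, ?_⟩)
              have := (hx1.mul_left' p).add_right c
              rwa [← h1b, Nat.div_add_mod, h1b] at this
            · intro n1 _ n2 _ h
              exact Nat.eq_of_mul_eq_mul_left hpp.pos h
          · intro n' hn'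
            exact Nat.mem_smoothNumbers_of_dvd (hsm _ (hmem n' hn').1) (Dvd.intro_left _ rfl)
          · intro n' hn'
            obtain ⟨r, hr1, hr2, hr3⟩ := hp _ (hmem n' hn').1
            refine ⟨r, hr1, ?_, hr3⟩
            rcases (Nat.Prime.dvd_mul hr1).mp hr2 with h | h
            · have := (Nat.prime_dvd_prime_iff_eq hr1 hpp).mp h
              omega
            · exact h
          · intro n' hn'
            have h0 := hΩ _ (hmem n' hn').1
            have hn0 : p * n' ≠ 0 := (hsm _ (hmem n' hn').1).1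
            have hk0 : n' ≠ 0 := by rintro rfl; exact hn0 (by simp)
            unfold Om at h0 ⊢
            rw [ArithmeticFunction.cardFactors_mul hpp.ne_zero hk0,
              ArithmeticFunction.cardFactors_apply_prime hpp] at h0
            omega
        refine (Finset.sum_le_sum hfib).trans (le_of_eq ?_)
        rw [Finset.sum_const, Finset.card_range, nsmul_eq_mul, ← mul_assoc,
          mul_inv_cancel₀ hpr.ne', one_mul]
    have hcard : P.card ≤ κ * (j + 1) := by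
      refine Finset.card_biUnion_le.trans ?_
      refine (Finset.sum_le_card_nsmul _ _ (j + 1) fun c hc => ?_).trans ?_
      · refine le_trans ?_ (hΩ c (hCH hc))
        unfold Om
        rw [ArithmeticFunction.cardFactors_apply]
        exact List.toFinset_card_le _
      · rw [smul_eq_mul]
        exact Nat.mul_le_mul_right _ hCκ
    refine hle.trans ((Finset.sum_le_sum heach).trans ?_)
    rw [Finset.sum_const, nsmul_eq_mul, Nat.factorial_succ]
    have : (P.card : ℝ) ≤ (κ * (j + 1) : ℕ) := by exact_mod_cast hcard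
    push_cast at this ⊢
    calc (P.card : ℝ) * ((κ : ℝ) ^ j * j.factorial * S / z)
        ≤ (κ * (j + 1)) * ((κ : ℝ) ^ j * j.factorial * S / z) :=
          mul_le_mul_of_nonneg_right this (by positivity)
      _ = _ := by ring

lemma blockK {κ : ℕ} (hκ : 0 < κ) (i k : ℕ) (N : Finset ℕ) (b : ℕ → ℕ) (hD : Bd κ N b)
    (hsm : ∀ n ∈ N, n ∈ (zz (i + 1)).smoothNumbers)
    (hp : ∀ n ∈ N, ∃ p, p.Prime ∧ p ∣ n ∧ zz i ≤ p) :
    ∑ n ∈ N, (n : ℝ)⁻¹ ≤ (κ ^ k * k.factorial : ℕ) * Real.exp 24 ^ (i + 2) / zz i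
      + (2 / 3 : ℝ) ^ k * Real.exp 24 ^ (i + 2) := by
  rw [← Finset.sum_filter_add_sum_filter_not N (fun n => Om n ≤ k)]
  refine add_le_add ?_ ?_
  · refine treeK κ (zz i) (zz (i + 1)) _ hκ (by unfold zz; positivity) ?_ k _ b
      (hD.mono (Finset.filter_subset _ _)) (fun n hn => hsm n (Finset.mem_filter.mp hn).1)
      (fun n hn => hp n (Finset.mem_filter.mp hn).1) (fun n hn => (Finset.mem_filter.mp hn).2)
    intro N' hN'
    have := (rankin (t := 1) (by norm_num) (by norm_num) _ N' hN').trans (exp_bound (i + 1))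
    simpa using this
  · have h := (rankin (t := 3 / 2) (by norm_num) (by norm_num) _
      (N.filter (fun n => ¬ Om n ≤ k))
      (fun n hn => hsm n (Finset.mem_filter.mp hn).1)).trans (exp_bound (i + 1))
    refine le_trans ?_ (mul_le_mul_of_nonneg_left h (by positivity))
    rw [Finset.mul_sum]
    refine Finset.sum_le_sum fun n hn => ?_
    have hk : k ≤ Om n := (not_le.mp (Finset.mem_filter.mp hn).2).le
    rw [← mul_assoc]
    refine le_mul_of_one_le_left (by positivity) ?_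
    have h1 : (3 / 2 : ℝ) ^ k ≤ (3 / 2 : ℝ) ^ Om n := pow_le_pow_right₀ (by norm_num) hk
    calc (1 : ℝ) = (2 / 3 : ℝ) ^ k * (3 / 2 : ℝ) ^ k := by rw [← mul_pow]; norm_num
      _ ≤ _ := mul_le_mul_of_nonneg_left h1 (by positivity)

lemma smallK (κ : ℕ) : ∃ j₀ : ℕ, ∀ i, j₀ ≤ i → ∃ k : ℕ,
    Real.exp 24 ^ (i + 1) * ((κ ^ k * k.factorial : ℕ) * Real.exp 24 ^ (i + 2) / zz i
      + (2 / 3 : ℝ) ^ k * Real.exp 24 ^ (i + 2)) ≤ (1 / 2 : ℝ) ^ (i + 2) := by
  set A := Real.exp 24 with hA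
  have hA1 : 1 ≤ A := Real.one_le_exp (by norm_num)
  obtain ⟨c, hc⟩ : ∃ c : ℕ, (2 / 3 : ℝ) ^ c < 1 / (4 * A ^ 2) :=
    exists_pow_lt_of_lt_one (by positivity) (by norm_num)
  obtain ⟨D, hD⟩ : ∃ D : ℕ, A < 2 ^ D := pow_unbounded_of_one_lt A (by norm_num)
  set C : ℕ := 2 * D + c ^ 2 + κ * c + 2 with hC
  have ht := (tendsto_pow_const_div_const_pow_of_one_lt 2 (r := (2 : ℝ)) (by norm_num)).comp
    (Filter.tendsto_add_atTop_nat 2)
  have hev := ht.eventually (gt_mem_nhds (show (0 : ℝ) < 1 / (4 * C + 1) by positivity))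
  obtain ⟨j₀, hj₀⟩ := Filter.eventually_atTop.mp hev
  refine ⟨j₀, fun i hi => ⟨c * (i + 2), ?_⟩⟩
  have hi' := hj₀ i hi
  simp only [Function.comp] at hi'
  have hpoly : C * (i + 2) ^ 2 ≤ 2 ^ i := by
    rw [div_lt_div_iff₀ (by positivity) (by positivity)] at hi'
    have : ((C * (i + 2) ^ 2 : ℕ) : ℝ) ≤ ((2 ^ i : ℕ) : ℝ) := by
      push_cast at hi' ⊢
      rw [pow_add] at hi'
      have : (0 : ℝ) ≤ ((i : ℝ) + 2) ^ 2 := by positivity
      nlinarith
    exact_mod_cast this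
  have hAA : A ^ (i + 1) * A ^ (i + 2) ≤ (A ^ 2) ^ (i + 2) := by
    rw [← pow_add, ← pow_mul]
    exact pow_le_pow_right₀ hA1 (by omega)
  have hhalf : (1 / 4 : ℝ) ^ (i + 2) ≤ (1 / 2) * (1 / 2 : ℝ) ^ (i + 2) := by
    rw [show (1 / 4 : ℝ) = (1 / 2) * (1 / 2) by norm_num, mul_pow]
    refine mul_le_mul_of_nonneg_right ?_ (by positivity)
    calc (1 / 2 : ℝ) ^ (i + 2) ≤ (1 / 2 : ℝ) ^ 1 :=
          pow_le_pow_of_le_one (by norm_num) (by norm_num) (by omega)
      _ = 1 / 2 := pow_one _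
  have hsecond : A ^ (i + 1) * ((2 / 3 : ℝ) ^ (c * (i + 2)) * A ^ (i + 2))
      ≤ (1 / 4 : ℝ) ^ (i + 2) := by
    calc A ^ (i + 1) * ((2 / 3 : ℝ) ^ (c * (i + 2)) * A ^ (i + 2))
        = (2 / 3 : ℝ) ^ (c * (i + 2)) * (A ^ (i + 1) * A ^ (i + 2)) := by ring
      _ ≤ (2 / 3 : ℝ) ^ (c * (i + 2)) * (A ^ 2) ^ (i + 2) :=
          mul_le_mul_of_nonneg_left hAA (by positivity)
      _ = ((2 / 3 : ℝ) ^ c * A ^ 2) ^ (i + 2) := by rw [mul_pow, pow_mul]
      _ ≤ (1 / 4 : ℝ) ^ (i + 2) := by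
          refine pow_le_pow_left₀ (by positivity) ?_ _
          rw [lt_div_iff₀ (by positivity)] at hc
          linarith
  have hfirst : A ^ (i + 1) *
      ((κ ^ (c * (i + 2)) * (c * (i + 2)).factorial : ℕ) * A ^ (i + 2) / zz i)
      ≤ (1 / 4 : ℝ) ^ (i + 2) := by
    have hf : κ ^ (c * (i + 2)) * (c * (i + 2)).factorial ≤
        2 ^ (κ * (c * (i + 2)) + (c * (i + 2)) ^ 2) := by
      rw [pow_add]
      refine Nat.mul_le_mul ?_ ((Nat.factorial_le_pow _).trans ?_)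
      · rw [pow_mul 2]
        exact Nat.pow_le_pow_left (Nat.lt_two_pow_self).le _
      · rw [sq, pow_mul 2]
        exact Nat.pow_le_pow_left (Nat.lt_two_pow_self).le _
    have hf' : ((κ ^ (c * (i + 2)) * (c * (i + 2)).factorial : ℕ) : ℝ) ≤
        2 ^ (κ * (c * (i + 2)) + (c * (i + 2)) ^ 2) := by exact_mod_cast hf
    have hA2 : (A ^ 2) ^ (i + 2) ≤ (2 : ℝ) ^ (2 * D * (i + 2)) := by
      rw [pow_mul (2 : ℝ) (2 * D)]
      refine pow_le_pow_left₀ (by positivity) ?_ _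
      rw [mul_comm 2 D, pow_mul]
      exact pow_le_pow_left₀ (by positivity) hD.le _
    have hz : ((zz i : ℕ) : ℝ) = 2 ^ (2 ^ i) := by unfold zz; push_cast; rfl
    have hexp : κ * (c * (i + 2)) + (c * (i + 2)) ^ 2 + 2 * D * (i + 2) + 2 * (i + 2) ≤ 2 ^ i := by
      refine le_trans ?_ hpoly
      rw [hC]
      have : i + 2 ≤ (i + 2) ^ 2 := by nlinarith
      nlinarith [Nat.mul_le_mul_left (2 * D) this, Nat.mul_le_mul_left (κ * c) this]
    have h4 : (1 / 4 : ℝ) ^ (i + 2) = ((2 : ℝ) ^ (2 * (i + 2)))⁻¹ := by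
      rw [pow_mul, ← inv_pow]; norm_num
    rw [hz, h4, ← mul_div_assoc, div_le_iff₀ (by positivity), ← div_eq_inv_mul,
      le_div_iff₀ (by positivity)]
    calc A ^ (i + 1) * ((κ ^ (c * (i + 2)) * (c * (i + 2)).factorial : ℕ) * A ^ (i + 2)) *
          2 ^ (2 * (i + 2))
        = ((κ ^ (c * (i + 2)) * (c * (i + 2)).factorial : ℕ) : ℝ) *
          (A ^ (i + 1) * A ^ (i + 2)) * 2 ^ (2 * (i + 2)) := by ring
      _ ≤ 2 ^ (κ * (c * (i + 2)) + (c * (i + 2)) ^ 2) * 2 ^ (2 * D * (i + 2)) *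
          2 ^ (2 * (i + 2)) := by
          gcongr
          exact hAA.trans hA2
      _ = 2 ^ (κ * (c * (i + 2)) + (c * (i + 2)) ^ 2 + 2 * D * (i + 2) + 2 * (i + 2)) := by
          rw [← pow_add, ← pow_add]
      _ ≤ 2 ^ (2 ^ i) := pow_le_pow_right₀ (by norm_num) hexp
  rw [mul_add]
  linarith

/-- The key estimate `K y * δ(y) ≤ ε` for a suitable `y`. -/
lemma levelK {κ : ℕ} (hκ : 0 < κ) {ε : ℝ} (hε : 0 < ε) : ∃ y : ℕ, ∀ (N : Finset ℕ) (b : ℕ → ℕ),
    (∀ n ∈ N, n ≠ 0 ∧ ∃ p, p.Prime ∧ p ∣ n ∧ y ≤ p) → Bd κ N b →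
    ∑ n ∈ N, (n : ℝ)⁻¹ ≤ ε / K y := by
  obtain ⟨j₀, hj₀⟩ := smallK κ
  obtain ⟨j₁, hj₁⟩ : ∃ j : ℕ, (1 / 2 : ℝ) ^ j < ε := exists_pow_lt_of_lt_one hε (by norm_num)
  obtain ⟨j, hj, hjε⟩ : ∃ j, j₀ ≤ j ∧ (1 / 2 : ℝ) ^ (j + 1) ≤ ε :=
    ⟨j₀ + j₁, by omega, (pow_le_pow_of_le_one (by norm_num) (by norm_num) (by omega)).trans hj₁.le⟩
  refine ⟨zz j, ?_⟩
  set A := Real.exp 24 with hA
  have hA1 : 1 ≤ A := Real.one_le_exp (by norm_num)
  have key : ∀ R : ℕ, ∀ (N : Finset ℕ) (b : ℕ → ℕ),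
      (∀ n ∈ N, ∃ p, p.Prime ∧ p ∣ n ∧ zz j ≤ p) → Bd κ N b →
      (∀ n ∈ N, n ∈ (zz (j + R)).smoothNumbers) →
      A ^ (j + 1) * ∑ n ∈ N, (n : ℝ)⁻¹ ≤ (1 / 2 : ℝ) ^ (j + 1) - (1 / 2 : ℝ) ^ (j + R + 1) := by
    intro R
    induction R with
    | zero =>
      intro N b hp _ hsm
      have : N = ∅ := by
        rw [Finset.eq_empty_iff_forall_notMem]
        intro n hn
        obtain ⟨p, h1, h2, h3⟩ := hp n hn
        have := Nat.mem_smoothNumbers'.mp (hsm n hn) p h1 h2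
        simp only [add_zero] at this
        omega
      rw [this]; norm_num
    | succ R ih =>
      intro N b hp hD hsm
      classical
      rw [← Finset.sum_filter_add_sum_filter_not N (fun n => n ∈ (zz (j + R)).smoothNumbers),
        mul_add]
      have h1 := ih (N.filter (fun n => n ∈ (zz (j + R)).smoothNumbers)) b
        (fun n hn => hp n (Finset.mem_filter.mp hn).1) (hD.mono (Finset.filter_subset _ _))
        (fun n hn => (Finset.mem_filter.mp hn).2)
      obtain ⟨k, hk⟩ := hj₀ (j + R) (by omega)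
      have h2 := blockK hκ (j + R) k (N.filter (fun n => ¬ n ∈ (zz (j + R)).smoothNumbers)) b
        (hD.mono (Finset.filter_subset _ _)) (fun n hn => hsm n (Finset.mem_filter.mp hn).1)
        (fun n hn => by
          have := (Finset.mem_filter.mp hn).2
          rw [Nat.mem_smoothNumbers'] at this
          push Not at this
          exact this)
      have h3 : A ^ (j + 1) ≤ A ^ (j + R + 1) := pow_le_pow_right₀ hA1 (by omega)
      have h5 : A ^ (j + 1) * ∑ n ∈ N.filter (fun n => ¬ n ∈ (zz (j + R)).smoothNumbers),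
          (n : ℝ)⁻¹ ≤ (1 / 2 : ℝ) ^ (j + R + 2) := by
        refine le_trans ?_ hk
        exact mul_le_mul h3 h2 (Finset.sum_nonneg fun _ _ => by positivity) (by positivity)
      rw [show j + (R + 1) + 1 = j + R + 1 + 1 by ring, pow_succ (1 / 2 : ℝ) (j + R + 1)]
      rw [show j + R + 2 = j + R + 1 + 1 by ring, pow_succ (1 / 2 : ℝ) (j + R + 1)] at h5
      linarith
  intro N b hN hD
  have h := key (N.sup id) N b (fun n hn => (hN n hn).2) hD (fun n hn => by
    refine Nat.mem_smoothNumbers_of_lt (Nat.pos_of_ne_zero (hN n hn).1) ?_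
    have h1 : n ≤ N.sup id := Finset.le_sup (f := id) hn
    have h2 := lt_zz (j + N.sup id)
    omega)
  rw [le_div_iff₀ (K_pos _)]
  have h1 : (0 : ℝ) ≤ (1 / 2 : ℝ) ^ (j + N.sup id + 1) := by positivity
  have h2 := mul_le_mul_of_nonneg_left (K_zz_le j)
    (Finset.sum_nonneg (s := N) (f := fun n : ℕ => (n : ℝ)⁻¹) fun _ _ => by positivity)
  linarith

end Pool.Agent.Work.MP_cda74c_nt.Hedge
end

-- merged part: Pool.Agent.Work.MP_cda74c_nt.Hedge.Gen
section
/-!
Saturated systems with bounded overlap and bounded repetition of the moduli.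
-/

namespace Pool.Agent.Work.MP_cda74c_nt.Hedge

open Finset Pool.Agent.Work.MP_cda74c_nt

lemma crt_split (y : ℕ) {M : ℕ} (hM : M ≠ 0) (x t : ℕ) :
    ∃ u, ∀ m, m ∣ M → u ≡ x [MOD dd y m] ∧ u ≡ t [MOD nn y m] := by
  obtain ⟨u, hu1, hu2⟩ := Nat.chineseRemainder
    (coprime_of_smooth_rough (dd_smooth (y := y) hM) (nn_rough hM)) x t
  exact ⟨u, fun m hm => ⟨hu1.of_dvd (dd_dvd_dd hM hm), hu2.of_dvd (nn_dvd_nn hM hm)⟩⟩

lemma rough_le {κ y : ℕ} (Good : ℕ → Prop) (δ : ℝ)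
    (hδ : ∀ (N : Finset ℕ) (b : ℕ → ℕ), (∀ n ∈ N, Good n) → Bd κ N b → ∑ n ∈ N, (n : ℝ)⁻¹ ≤ δ)
    {M : ℕ} (hM : 0 < M) (T : Finset ℕ) (a : ℕ → ℕ) (hT : ∀ m ∈ T, m ∣ M) (hD : Bd κ T a)
    (hG : ∀ m ∈ T, Good (nn y m)) (U : Finset ℕ) (hUs : U ⊆ range M)
    (hU : ∀ x ∈ range M, ∀ m ∈ T, x ≡ a m [MOD dd y m] → x ∈ U) :
    ∑ m ∈ T, (M : ℝ) / m ≤ K y * δ * U.card := by
  classical
  have hne : ∀ m ∈ T, m ≠ 0 := fun m hm => (Nat.pos_of_dvd_of_pos (hT m hm) hM).ne'
  refine (fibre_ineq (rogers y) M T a hM hT).trans ?_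
  have hpt : ∀ x ∈ range M, ∑ n ∈ seen y T a x, (n : ℝ)⁻¹ ≤ if x ∈ U then δ else 0 := by
    intro x hx
    split_ifs with hxU
    · have hch : ∀ n ∈ seen y T a x, ∃ m ∈ T, x ≡ a m [MOD dd y m] ∧ nn y m = n :=
        fun n hn => mem_seen.mp hn
      choose! μ hμ using hch
      refine hδ (seen y T a x) (fun n => a (μ n)) ?_ ?_
      · intro n hn
        obtain ⟨h1, _, h3⟩ := hμ n hn
        rw [← h3]
        exact hG _ h1
      · intro t
        obtain ⟨u, hu⟩ := crt_split y hM.ne' x t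
        refine le_trans (Finset.card_le_card_of_injOn μ ?_ ?_) (hD u)
        · intro n hn
          obtain ⟨hn1, hn2⟩ := Finset.mem_filter.1 (Finset.mem_coe.1 hn)
          obtain ⟨h1, h2, h3⟩ := hμ n hn1
          obtain ⟨h4, h5⟩ := hu _ (hT _ h1)
          refine Finset.mem_coe.2 (Finset.mem_filter.2 ⟨h1,
            modEq_of_split (y := y) (hne _ h1) (h4.trans h2) (h5.trans ?_)⟩)
          rw [h3]
          exact hn2
        · intro n hn n' hn' h
          rw [← (hμ n (Finset.mem_filter.1 (Finset.mem_coe.1 hn)).1).2.2,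
            ← (hμ n' (Finset.mem_filter.1 (Finset.mem_coe.1 hn')).1).2.2, h]
    · have : seen y T a x = ∅ := by
        rw [Finset.eq_empty_iff_forall_notMem]
        intro n hn
        obtain ⟨m, hm, h, _⟩ := mem_seen.mp hn
        exact hxU (hU x hx m hm h)
      rw [this]; simp
  have hsum := Finset.sum_le_sum hpt
  have hite : ∑ x ∈ range M, (if x ∈ U then δ else 0) = U.card * δ := by
    rw [← Finset.sum_filter, Finset.sum_const, nsmul_eq_mul]
    congr 3
    ext x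
    simp only [Finset.mem_filter]
    exact ⟨fun h => h.2, fun h => ⟨hUs h, h⟩⟩
  rw [hite] at hsum
  calc K y * ∑ x ∈ range M, ∑ n ∈ seen y T a x, (n : ℝ)⁻¹ ≤ K y * (U.card * δ) :=
        mul_le_mul_of_nonneg_left hsum (K_pos y).le
    _ = K y * δ * U.card := by ring

/-- Double counting of the points of `range M` in the classes. -/
lemma sum_eq_count {ι : Type*} (s : Finset ι) (m a : ι → ℕ) {M : ℕ} (hM : 0 < M)
    (hd : ∀ i ∈ s, m i ∣ M) :
    ∑ i ∈ s, (M : ℝ) / m i =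
      ∑ x ∈ range M, ((s.filter fun i => x ≡ a i [MOD m i]).card : ℝ) := by
  have h1 : ∀ i ∈ s, (M : ℝ) / m i = ∑ x ∈ range M, if x ≡ a i [MOD m i] then (1 : ℝ) else 0 := by
    intro i hi
    rw [← card_class (hd i hi) hM (a i), Finset.card_filter]
    push_cast
    rfl
  rw [Finset.sum_congr rfl h1, Finset.sum_comm]
  refine Finset.sum_congr rfl fun x _ => ?_
  rw [Finset.card_filter]
  push_cast
  rfl

lemma main_mult {ι : Type*} {κ r y : ℕ} (Good : ℕ → Prop) (δ θ : ℝ) (hθ : θ ≤ 1)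
    (hKδ : r * (K y * δ) ≤ θ)
    (hδ : ∀ (N : Finset ℕ) (b : ℕ → ℕ), (∀ n ∈ N, Good n) → Bd κ N b → ∑ n ∈ N, (n : ℝ)⁻¹ ≤ δ)
    (s : Finset ι) (m a col : ι → ℕ) (hm : ∀ i ∈ s, m i ≠ 0) (hcol : ∀ i ∈ s, col i < r)
    (hinj : ∀ i ∈ s, ∀ j ∈ s, col i = col j → m i = m j → i = j)
    (hD : ∀ x : ℕ, (s.filter fun i => x ≡ a i [MOD m i]).card ≤ κ)
    (hG : ∀ i ∈ s, nn y (m i) ≠ 1 → Good (nn y (m i)))
    (i₀ : ι) (hi₀ : i₀ ∈ s) (hi₀' : nn y (m i₀) ≠ 1) :
    ∑ i ∈ s, (m i : ℝ)⁻¹ ≤ κ - (1 - θ) / m i₀ := by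
  classical
  set M := ∏ i ∈ s, m i with hMdef
  have hM : 0 < M := Finset.prod_pos fun i hi => Nat.pos_of_ne_zero (hm i hi)
  have hdvd : ∀ i ∈ s, m i ∣ M := fun i hi => Finset.dvd_prod_of_mem _ hi
  set s₁ := s.filter (fun i => nn y (m i) ≠ 1) with hs₁
  set s₀ := s.filter (fun i => ¬ nn y (m i) ≠ 1) with hs₀
  set U := (range M).filter (fun x => ∃ i ∈ s₁, x ≡ a i [MOD dd y (m i)]) with hU
  have hsplit : ∑ i ∈ s, (M : ℝ) / m i = ∑ i ∈ s₁, (M : ℝ) / m i + ∑ i ∈ s₀, (M : ℝ) / m i :=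
    (Finset.sum_filter_add_sum_filter_not s _ _).symm
  have h2 : ∑ i ∈ s₁, (M : ℝ) / m i ≤ θ * U.card := by
    have hmaps : ∀ i ∈ s₁, col i ∈ range r := fun i hi =>
      Finset.mem_range.2 (hcol i (Finset.mem_filter.1 hi).1)
    rw [← Finset.sum_fiberwise_of_maps_to hmaps]
    have hc : ∀ c ∈ range r, ∑ i ∈ s₁.filter (fun i => col i = c), (M : ℝ) / m i ≤
        K y * δ * U.card := by
      intro c _
      set t := s₁.filter (fun i => col i = c) with ht
      have hts : ∀ i ∈ t, i ∈ s := fun i hi =>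
        (Finset.mem_filter.1 (Finset.mem_filter.1 hi).1).1
      have hti : Set.InjOn m t := fun i hi j hj h =>
        hinj i (hts i hi) j (hts j hj)
          ((Finset.mem_filter.1 hi).2.trans (Finset.mem_filter.1 hj).2.symm) h
      have hch : ∀ d ∈ t.image m, ∃ i, i ∈ t ∧ m i = d := fun d hd => Finset.mem_image.1 hd
      have : Nonempty ι := ⟨i₀⟩
      choose! ρ hρ using hch
      rw [← Finset.sum_image (f := fun d : ℕ => (M : ℝ) / d) hti]
      refine rough_le Good δ hδ hM (t.image m) (fun d => a (ρ d)) ?_ ?_ ?_ U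
        (Finset.filter_subset _ _) ?_
      · intro d hd
        rw [← (hρ d hd).2]
        exact hdvd _ (hts _ (hρ d hd).1)
      · intro x
        refine le_trans (Finset.card_le_card_of_injOn ρ ?_ ?_) (hD x)
        · intro d hd
          obtain ⟨hd1, hd2⟩ := Finset.mem_filter.1 (Finset.mem_coe.1 hd)
          refine Finset.mem_coe.2 (Finset.mem_filter.2 ⟨hts _ (hρ d hd1).1, ?_⟩)
          rw [(hρ d hd1).2]
          exact hd2
        · intro d hd d' hd' h
          rw [← (hρ d (Finset.mem_filter.1 (Finset.mem_coe.1 hd)).1).2,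
            ← (hρ d' (Finset.mem_filter.1 (Finset.mem_coe.1 hd')).1).2, h]
      · intro d hd
        have h1 := Finset.mem_filter.1 (Finset.mem_filter.1 (hρ d hd).1).1
        rw [← (hρ d hd).2]
        exact hG _ h1.1 h1.2
      · intro x hx d hd h
        refine Finset.mem_filter.2 ⟨hx, ρ d, (Finset.mem_filter.1 (hρ d hd).1).1, ?_⟩
        rw [(hρ d hd).2]
        exact h
    refine (Finset.sum_le_sum hc).trans ?_
    rw [Finset.sum_const, Finset.card_range, nsmul_eq_mul, ← mul_assoc]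
    exact mul_le_mul_of_nonneg_right hKδ (by positivity)
  have h1 : ∑ i ∈ s₀, (M : ℝ) / m i + U.card ≤ κ * M := by
    rw [sum_eq_count s₀ m a hM fun i hi => hdvd i (Finset.mem_filter.1 hi).1]
    have hUc : (U.card : ℝ) = ∑ x ∈ range M, if x ∈ U then (1 : ℝ) else 0 := by
      rw [← Finset.sum_filter, Finset.sum_const, nsmul_eq_mul, mul_one]
      congr 2
      ext x
      exact ⟨fun h => Finset.mem_filter.2 ⟨(Finset.mem_filter.1 h).1, h⟩,
        fun h => (Finset.mem_filter.1 h).2⟩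
    rw [hUc, ← Finset.sum_add_distrib]
    refine (Finset.sum_le_card_nsmul _ _ (κ : ℝ) fun x _ => ?_).trans
      (by rw [Finset.card_range, nsmul_eq_mul, mul_comm])
    split_ifs with hxU
    · obtain ⟨_, i₁, hi₁, hx₁⟩ := Finset.mem_filter.1 hxU
      have hi₁' := Finset.mem_filter.1 hi₁
      obtain ⟨u, hu⟩ := crt_split y hM.ne' x (a i₁)
      have hsub : insert i₁ (s₀.filter fun i => x ≡ a i [MOD m i]) ⊆
          s.filter fun i => u ≡ a i [MOD m i] := by
        intro i hi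
        rcases Finset.mem_insert.1 hi with rfl | hi
        · obtain ⟨h4, h5⟩ := hu _ (hdvd i hi₁'.1)
          exact Finset.mem_filter.2 ⟨hi₁'.1,
            modEq_of_split (y := y) (hm i hi₁'.1) (h4.trans hx₁) h5⟩
        · obtain ⟨h3, h4⟩ := Finset.mem_filter.1 hi
          obtain ⟨h5, h6⟩ := Finset.mem_filter.1 h3
          refine Finset.mem_filter.2 ⟨h5, modEq_of_split (y := y) (hm i h5)
            ((hu _ (hdvd i h5)).1.trans (h4.of_dvd (dd_dvd (hm i h5)))) ?_⟩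
          rw [not_not.1 h6]
          exact Nat.modEq_one
      have hnot : i₁ ∉ s₀.filter fun i => x ≡ a i [MOD m i] := fun h =>
        (Finset.mem_filter.1 (Finset.mem_filter.1 h).1).2 hi₁'.2
      have := (Finset.card_le_card hsub).trans (hD u)
      rw [Finset.card_insert_of_notMem hnot] at this
      exact_mod_cast this
    · have := (Finset.card_le_card (Finset.filter_subset_filter (fun i => x ≡ a i [MOD m i])
        (Finset.filter_subset (fun i => ¬ nn y (m i) ≠ 1) s))).trans (hD x)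
      rw [add_zero]
      exact_mod_cast this
  have h3 : (M : ℝ) / m i₀ ≤ U.card := by
    rw [← card_class (hdvd i₀ hi₀) hM (a i₀)]
    have : (range M).filter (fun x => x ≡ a i₀ [MOD m i₀]) ⊆ U := by
      intro x hx
      have hx' := Finset.mem_filter.mp hx
      exact Finset.mem_filter.mpr ⟨hx'.1, i₀, Finset.mem_filter.mpr ⟨hi₀, hi₀'⟩,
        hx'.2.of_dvd (dd_dvd (hm _ hi₀))⟩
    exact_mod_cast Finset.card_le_card this
  have hMr : (0 : ℝ) < M := by exact_mod_cast hM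
  have hfin : ∑ i ∈ s, (M : ℝ) / m i ≤ κ * M - (1 - θ) * (M / m i₀) := by
    have := mul_le_mul_of_nonneg_left h3 (sub_nonneg.mpr hθ)
    rw [hsplit]
    linarith
  have hrew : ∑ i ∈ s, (M : ℝ) / m i = M * ∑ i ∈ s, (m i : ℝ)⁻¹ := by
    rw [Finset.mul_sum]
    exact Finset.sum_congr rfl fun m _ => div_eq_mul_inv _ _
  rw [hrew] at hfin
  have : (κ : ℝ) * M - (1 - θ) * (M / m i₀) = M * (κ - (1 - θ) / m i₀) := by ring
  rw [this] at hfin
  exact le_of_mul_le_mul_left hfin hMr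

/-- A saturated system: overlap at most `κ`, repetition at most `r`, reciprocal sum `κ`. -/
structure Sys {I : Type*} (r κ : ℕ) (a : I → ℤ) (m : I → ℕ) : Prop where
  pos : ∀ i, m i ≠ 0
  rep : ∀ d, {i | m i = d}.encard ≤ r
  ov : ∀ n : ℤ, 1 ≤ n → {i | n ≡ a i [ZMOD m i]}.encard ≤ κ
  sum : HasSum (fun i => (1 : ℝ) / m i) κ

lemma exists_col {I : Type*} {r : ℕ} {m : I → ℕ} (h : ∀ d, {i | m i = d}.encard ≤ r) :
    ∃ col : I → ℕ, (∀ i, col i < r) ∧ ∀ i j, col i = col j → m i = m j → i = j := by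
  classical
  have h1 : ∀ d, ∃ f : I → ℕ, (∀ i, m i = d → f i < r) ∧
      ∀ i j, m i = d → m j = d → f i = f j → i = j := by
    intro d
    have hfin : {i | m i = d}.Finite := Set.finite_of_encard_le_coe (h d)
    have hc : hfin.toFinset.card ≤ r := by
      have := h d
      rw [hfin.encard_eq_coe_toFinset_card] at this
      exact_mod_cast this
    refine ⟨fun i => if hi : i ∈ hfin.toFinset then (hfin.toFinset.equivFin ⟨i, hi⟩ : ℕ) else 0,
      fun i hi => ?_, fun i j hi hj hij => ?_⟩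
    · have hi' : i ∈ hfin.toFinset := hfin.mem_toFinset.2 hi
      simp only [dif_pos hi']
      exact (Fin.is_lt _).trans_le hc
    · have hi' : i ∈ hfin.toFinset := hfin.mem_toFinset.2 hi
      have hj' : j ∈ hfin.toFinset := hfin.mem_toFinset.2 hj
      simp only [dif_pos hi', dif_pos hj'] at hij
      exact congrArg Subtype.val (hfin.toFinset.equivFin.injective (Fin.ext hij))
  choose f hf1 hf2 using h1
  refine ⟨fun i => f (m i) i, fun i => hf1 _ i rfl, fun i j h1 h2 => ?_⟩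
  simp only [h2] at h1
  exact hf2 (m j) i j h2 rfl h1

lemma Sys.no_rough {I : Type*} {r κ : ℕ} {a : I → ℤ} {m : I → ℕ} (h : Sys r κ a m)
    (y : ℕ) (Good : ℕ → Prop) (δ θ : ℝ) (hθ : θ < 1) (hKδ : r * (K y * δ) ≤ θ)
    (hδ : ∀ (N : Finset ℕ) (b : ℕ → ℕ), (∀ n ∈ N, Good n) → Bd κ N b → ∑ n ∈ N, (n : ℝ)⁻¹ ≤ δ)
    (hG : ∀ i, nn y (m i) ≠ 1 → Good (nn y (m i)))
    (i₀ : I) (hi₀ : nn y (m i₀) ≠ 1) : False := by
  classical
  obtain ⟨col, hc1, hc2⟩ := exists_col h.rep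
  set b : I → ℕ := fun i => (a i % m i).toNat with hb
  have hbm : ∀ i, ((b i : ℕ) : ℤ) ≡ a i [ZMOD m i] := by
    intro i
    have h0 : (m i : ℤ) ≠ 0 := by exact_mod_cast h.pos i
    rw [hb]
    simp only [Int.toNat_of_nonneg (Int.emod_nonneg _ h0)]
    exact Int.mod_modEq _ _
  have hbound : ∀ s : Finset I, ∑ i ∈ s, (1 : ℝ) / m i ≤ κ - (1 - θ) / m i₀ := by
    intro s
    have h1 := main_mult Good δ θ hθ.le hKδ hδ (insert i₀ s) m b col (fun i _ => h.pos i)
      (fun i _ => hc1 i) (fun i _ j _ => hc2 i j) (fun x => by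
        have hM : 0 < ∏ i ∈ insert i₀ s, m i :=
          Finset.prod_pos fun i _ => Nat.pos_of_ne_zero (h.pos i)
        have h2 := h.ov ((x + ∏ i ∈ insert i₀ s, m i : ℕ) : ℤ) (by omega)
        have h3 : (((insert i₀ s).filter fun i => x ≡ b i [MOD m i] : Finset I) : Set I) ⊆
            {i | ((x + ∏ i ∈ insert i₀ s, m i : ℕ) : ℤ) ≡ a i [ZMOD m i]} := by
          intro i hi
          obtain ⟨h4, h5⟩ := Finset.mem_filter.1 (Finset.mem_coe.1 hi)
          refine (Int.natCast_modEq_iff.2 ?_).trans (hbm i)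
          have h6 : ∏ i ∈ insert i₀ s, m i ≡ 0 [MOD m i] :=
            (Nat.modEq_zero_iff_dvd).2 (Finset.dvd_prod_of_mem _ h4)
          simpa using h5.add h6
        have h7 := (Set.encard_le_encard h3).trans h2
        rw [Set.encard_coe_eq_coe_finsetCard] at h7
        exact_mod_cast h7)
      (fun i _ => hG i) i₀ (Finset.mem_insert_self _ _) hi₀
    refine le_trans ?_ h1
    simp only [one_div]
    exact Finset.sum_le_sum_of_subset_of_nonneg (Finset.subset_insert _ _)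
      (fun _ _ _ => by positivity)
  have h1 := hasSum_le_of_sum_le h.sum hbound
  have h0 : (0 : ℝ) < m i₀ := by exact_mod_cast Nat.pos_of_ne_zero (h.pos i₀)
  have : 0 < (1 - θ) / m i₀ := div_pos (by linarith) h0
  linarith

/-- The primes dividing the moduli are bounded in terms of `r` and `κ`. -/
theorem primes_bdd (r κ : ℕ) (hκ : 0 < κ) : ∃ y : ℕ, ∀ {I : Type} (a : I → ℤ) (m : I → ℕ),
    Sys r κ a m → ∀ i p, p.Prime → p ∣ m i → p < y := by
  obtain ⟨y, hy⟩ := levelK hκ (ε := 1 / (2 * (r + 1))) (by positivity)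
  refine ⟨y, fun a m h j p hp hpj => ?_⟩
  by_contra hlt
  refine h.no_rough y (fun n => n ≠ 0 ∧ ∃ p, p.Prime ∧ p ∣ n ∧ y ≤ p) _ (1 / 2) (by norm_num)
    ?_ hy ?_ j ?_
  · rw [mul_div_cancel₀ _ (K_pos y).ne', mul_one_div, div_le_iff₀ (by positivity)]
    linarith
  · intro k hk
    obtain ⟨q, hq, hqd⟩ := Nat.exists_prime_and_dvd hk
    exact ⟨(nn_pos (h.pos k)).ne', q, hq, hqd, nn_rough (h.pos k) q hq hqd⟩
  · intro h1
    have := nn_ne_one (h.pos j) hp hpj (not_lt.mp hlt)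
    rw [h1] at this
    exact hp.one_lt.ne' (Nat.dvd_one.mp this)

/-- The largest prime `q` dividing a modulus satisfies `q - 1 ≤ r K q`. -/
theorem Sys.largest {I : Type*} {r κ : ℕ} {a : I → ℤ} {m : I → ℕ} (h : Sys r κ a m) {q : ℕ}
    (hq : q.Prime) {j : I} (hj : q ∣ m j) (hmax : ∀ i p, p.Prime → p ∣ m i → p ≤ q) :
    (q : ℝ) - 1 ≤ r * K q := by
  by_contra hlt
  have hq1 : (1 : ℝ) < q := by exact_mod_cast hq.one_lt
  have h1 : (1 - (q : ℝ)⁻¹)⁻¹ * ((q : ℝ) ^ 1)⁻¹ = ((q : ℝ) - 1)⁻¹ := by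
    have : (q : ℝ) - 1 ≠ 0 := by linarith
    have : (q : ℝ) ≠ 0 := by linarith
    field_simp
  refine h.no_rough q (fun n => ∃ k, 1 ≤ k ∧ n = q ^ k) _ _ ?_ le_rfl
    (fun N _ hN _ => geom_bound hq 1 N hN) ?_ j ?_
  · rw [h1, ← mul_assoc, ← div_eq_mul_inv, div_lt_one (by linarith)]
    exact not_le.1 hlt
  · intro k hk
    have h2 := Nat.eq_prime_pow_of_unique_prime_dvd (p := q) (nn_pos (y := q) (h.pos k)).ne' (by
      intro p hp hpd
      have h1 := nn_rough (y := q) (h.pos k) p hp hpd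
      have h2 := hmax k p hp (hpd.trans (nn_dvd (h.pos k)))
      omega)
    refine ⟨_, ?_, h2⟩
    by_contra h0
    have : (nn q (m k)).primeFactorsList.length = 0 := by omega
    rw [this, pow_zero] at h2
    exact hk h2
  · intro h2
    have := nn_ne_one (h.pos j) hq hj le_rfl
    rw [h2] at this
    exact hq.one_lt.ne' (Nat.dvd_one.mp this)

end Pool.Agent.Work.MP_cda74c_nt.Hedge
end

-- merged part: Pool.Agent.Work.MP_cda74c_nt.Hedge.Multi
section
/-!
Saturated `k`-fold systems with distinct moduli.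
-/

namespace Pool.Agent.Work.MP_cda74c_nt.Hedge

open Finset Pool.Agent.Work.MP_cda74c_nt

lemma smooth_iff {m : ℕ} : m ∈ Nat.smoothNumbers 4 ↔ ∃ α β : ℕ, m = 2 ^ α * 3 ^ β := by
  constructor
  · intro hm
    have hm0 : m ≠ 0 := hm.1
    have h2 := Nat.eq_prime_pow_of_unique_prime_dvd (p := 2) (dd_pos (y := 3) hm0).ne' (by
      intro p hp hpd
      have h1 := Nat.mem_smoothNumbers'.mp (dd_smooth (y := 3) hm0) p hp hpd
      have := hp.two_le
      omega)
    have h3 := Nat.eq_prime_pow_of_unique_prime_dvd (p := 3) (nn_pos (y := 3) hm0).ne' (by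
      intro p hp hpd
      have h1 := nn_rough (y := 3) hm0 p hp hpd
      have h2 := Nat.mem_smoothNumbers'.mp hm p hp (hpd.trans (nn_dvd hm0))
      omega)
    exact ⟨_, _, by rw [← h2, ← h3, dd_mul_nn hm0]⟩
  · rintro ⟨α, β, rfl⟩
    refine Nat.mem_smoothNumbers'.2 fun p hp h => ?_
    rcases (Nat.Prime.dvd_mul hp).1 h with h | h
    · have := Nat.le_of_dvd two_pos (hp.dvd_of_dvd_pow h)
      omega
    · have := Nat.le_of_dvd three_pos (hp.dvd_of_dvd_pow h)
      omega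

/-- With distinct moduli only the primes two and three occur. -/
theorem Sys.smooth {I : Type} {κ : ℕ} (hκ : 0 < κ) {a : I → ℤ} {m : I → ℕ} (h : Sys 1 κ a m)
    (i : I) : ∃ α β : ℕ, m i = 2 ^ α * 3 ^ β := by
  classical
  obtain ⟨y, hy⟩ := primes_bdd 1 κ hκ
  refine smooth_iff.1 (Nat.mem_smoothNumbers'.2 fun p₁ hp₁ hd₁ => ?_)
  set P := (range y).filter (fun p => p.Prime ∧ ∃ j, p ∣ m j) with hP
  have hmem : ∀ j p, p.Prime → p ∣ m j → p ∈ P := fun j p hp hd =>
    Finset.mem_filter.mpr ⟨Finset.mem_range.mpr (hy a m h j p hp hd), hp, j, hd⟩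
  have hne : P.Nonempty := ⟨p₁, hmem i p₁ hp₁ hd₁⟩
  obtain ⟨_, hqp, j₀, hqd⟩ := Finset.mem_filter.mp (Finset.max'_mem P hne)
  have hmax : ∀ i p, p.Prime → p ∣ m i → p ≤ P.max' hne := fun i p hp hd =>
    Finset.le_max' P p (hmem i p hp hd)
  have h1 := h.largest hqp hqd hmax
  by_contra hlt
  have h4 : p₁ ≠ 4 := by rintro rfl; exact absurd hp₁ (by norm_num)
  have h5 : 5 ≤ P.max' hne := le_trans (by omega) (hmax i p₁ hp₁ hd₁)
  have h6 := K_le _ h5
  have h7 : (5 : ℝ) ≤ (P.max' hne : ℕ) := by exact_mod_cast h5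
  push_cast at h1
  linarith

lemma hasSum_smooth : HasSum (Set.indicator {m : ℕ | 2 ≤ m ∧ ∃ α β : ℕ, m = 2 ^ α * 3 ^ β}
    fun m => (1 : ℝ) / m) 2 := by
  have hs := (EulerProduct.summable_and_hasSum_smoothNumbers_prod_primesBelow_geometric
    (f := rk 1) (fun {p} hp => by
      rw [rk_prime 1 hp, one_mul, Real.norm_of_nonneg (by positivity)]
      exact inv_lt_one_of_one_lt₀ (by exact_mod_cast hp.one_lt)) 4).2
  have h4 : Nat.primesBelow 4 = {2, 3} := by decide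
  rw [h4, Finset.prod_pair (by norm_num), rk_prime 1 Nat.prime_two,
    rk_prime 1 Nat.prime_three] at hs
  have h3 : HasSum (Set.indicator (Nat.smoothNumbers 4) fun m : ℕ => (1 : ℝ) / m) 3 := by
    rw [← hasSum_subtype_iff_indicator]
    have e : ((1 - 1 * ((2 : ℕ) : ℝ)⁻¹)⁻¹ * (1 - 1 * ((3 : ℕ) : ℝ)⁻¹)⁻¹ : ℝ) = 3 := by norm_num
    rw [e] at hs
    simpa only [rk_apply, one_pow, one_mul, Function.comp_def, one_div] using hs
  have h1 := h3.sub (hasSum_ite_eq (1 : ℕ) (1 : ℝ))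
  rw [show (3 : ℝ) - 1 = 2 by norm_num] at h1
  have e : (Set.indicator {m : ℕ | 2 ≤ m ∧ ∃ α β : ℕ, m = 2 ^ α * 3 ^ β} fun m => (1 : ℝ) / m) =
      fun m => Set.indicator (Nat.smoothNumbers 4) (fun m : ℕ => (1 : ℝ) / m) m -
        if m = 1 then 1 else 0 := by
    funext m
    by_cases h1 : m = 1
    · subst h1
      rw [Set.indicator_of_notMem (by simp),
        Set.indicator_of_mem (smooth_iff.2 ⟨0, 0, rfl⟩ : 1 ∈ Nat.smoothNumbers 4)]
      simp
    · rw [if_neg h1, sub_zero]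
      by_cases h2 : m ∈ Nat.smoothNumbers 4
      · have h0 : m ≠ 0 := h2.1
        rw [Set.indicator_of_mem h2, Set.indicator_of_mem]
        exact ⟨by omega, smooth_iff.1 h2⟩
      · rw [Set.indicator_of_notMem h2, Set.indicator_of_notMem]
        exact fun h => h2 (smooth_iff.2 h.2)
  rw [e]
  exact h1

lemma val_eq {q u w : ℤ} (hq : q ≠ 0) {β β' : ℕ} (hu : ¬ q ∣ u) (hw : ¬ q ∣ w)
    (h : q ^ (β' + 1) ∣ q ^ β' * w - q ^ β * u) : β = β' := by
  rcases lt_trichotomy β β' with hlt | he | hlt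
  · exfalso
    have h1 : q ^ (β + 1) ∣ q ^ β' * w := (pow_dvd_pow q hlt).mul_right w
    have h2 := dvd_sub h1 ((pow_dvd_pow q (by omega : β + 1 ≤ β' + 1)).trans h)
    rw [sub_sub_cancel, pow_succ, mul_dvd_mul_iff_left (pow_ne_zero _ hq)] at h2
    exact hu h2
  · exact he
  · exfalso
    have h1 : q ^ (β' + 1) ∣ q ^ β * u := (pow_dvd_pow q hlt).mul_right u
    have h2 := dvd_add h h1
    rw [sub_add_cancel, pow_succ, mul_dvd_mul_iff_left (pow_ne_zero _ hq)] at h2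
    exact hw h2

lemma exists_val (q : ℕ) (hq : q ≠ 1) {n : ℤ} (hn : 1 ≤ n) :
    ∃ (β : ℕ) (u : ℤ), 1 ≤ u ∧ ¬ (q : ℤ) ∣ u ∧ n = q ^ β * u := by
  obtain ⟨N, rfl⟩ := Int.eq_ofNat_of_zero_le (by omega : 0 ≤ n)
  obtain ⟨e, u, h1, h2⟩ := Nat.exists_eq_pow_mul_and_not_dvd (n := N) (by omega) q hq
  refine ⟨e, u, ?_, by exact_mod_cast h1, by exact_mod_cast h2⟩
  have : u ≠ 0 := by rintro rfl; exact h1 (dvd_zero q)
  omega

lemma two_adic {n : ℤ} (hn : 1 ≤ n) : ∃! α : ℕ, n ≡ 2 ^ α [ZMOD 2 ^ (α + 1)] := by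
  obtain ⟨α, u, -, h1, rfl⟩ := exists_val 2 (by norm_num) hn
  push_cast at h1 ⊢
  refine ⟨α, Int.modEq_iff_dvd.2 ?_, fun α' h => ?_⟩
  · rw [← mul_one_sub, pow_succ]
    exact mul_dvd_mul_left _ (by omega)
  · refine (val_eq (q := 2) (w := 1) (by norm_num) h1 (by norm_num) ?_).symm
    rw [mul_one]
    exact Int.modEq_iff_dvd.1 h

/-- The residue chosen for the modulus `2 ^ α * 3 ^ β`. -/
def res : ℕ → ℕ → ℤ
  | 0, 0 => 0
  | α + 1, 0 => 2 ^ α
  | 0, β + 1 => 3 ^ β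
  | α + 1, β + 1 => 3 ^ β * (3 * 2 ^ α - 1)

lemma three_adic {n : ℤ} (hn : 1 ≤ n) :
    ∃! p : ℕ × ℕ, n ≡ res p.1 (p.2 + 1) [ZMOD 2 ^ p.1 * 3 ^ (p.2 + 1)] := by
  obtain ⟨β, u, hu, h1, rfl⟩ := exists_val 3 (by norm_num) hn
  push_cast at h1 ⊢
  have hB : ∀ β' : ℕ, 3 ^ β * u ≡ res 0 (β' + 1) [ZMOD 2 ^ 0 * 3 ^ (β' + 1)] ↔
      β = β' ∧ 3 ∣ 1 - u := by
    intro β'
    rw [Int.modEq_iff_dvd, res, pow_zero, one_mul]
    constructor
    · intro h
      obtain rfl : β = β' := val_eq (q := 3) (w := 1) (by norm_num) h1 (by norm_num)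
        (by rwa [mul_one])
      rw [← mul_one_sub, pow_succ, mul_dvd_mul_iff_left (by positivity)] at h
      exact ⟨rfl, h⟩
    · rintro ⟨rfl, h⟩
      rw [← mul_one_sub, pow_succ]
      exact mul_dvd_mul_left _ h
  have hC : ∀ α β' : ℕ, 3 ^ β * u ≡ res (α + 1) (β' + 1) [ZMOD 2 ^ (α + 1) * 3 ^ (β' + 1)] ↔
      β = β' ∧ 3 * 2 ^ (α + 1) ∣ 3 * 2 ^ α - 1 - u := by
    intro α β'
    rw [Int.modEq_iff_dvd, res]
    have e : (2 : ℤ) ^ (α + 1) * 3 ^ (β' + 1) = 3 ^ β' * (3 * 2 ^ (α + 1)) := by ring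
    constructor
    · intro h
      obtain rfl : β = β' := val_eq (q := 3) (w := 3 * 2 ^ α - 1) (by norm_num) h1 (by omega)
        ((Dvd.intro_left _ rfl).trans h)
      rw [← mul_sub, e, mul_dvd_mul_iff_left (by positivity)] at h
      exact ⟨rfl, h⟩
    · rintro ⟨rfl, h⟩
      rw [← mul_sub, e]
      exact mul_dvd_mul_left _ h
  by_cases h3 : 3 ∣ 1 - u
  · refine ⟨(0, β), (hB β).2 ⟨rfl, h3⟩, ?_⟩
    rintro ⟨_ | α, β'⟩ h
    · rw [((hB β').1 h).1]
    · have := (Dvd.intro _ rfl).trans ((hC α β').1 h).2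
      omega
  · obtain ⟨t, ht⟩ : 3 ∣ u + 1 := by omega
    obtain ⟨α, hα, huniq⟩ := two_adic (n := t) (by omega)
    have hD : ∀ α : ℕ, 3 * 2 ^ (α + 1) ∣ 3 * 2 ^ α - 1 - u ↔ t ≡ 2 ^ α [ZMOD 2 ^ (α + 1)] := by
      intro α
      rw [show 3 * 2 ^ α - 1 - u = 3 * (2 ^ α - t) by linarith,
        mul_dvd_mul_iff_left (by norm_num), Int.modEq_iff_dvd]
    refine ⟨(α + 1, β), (hC α β).2 ⟨rfl, (hD α).2 hα⟩, ?_⟩
    rintro ⟨_ | α', β'⟩ h
    · exact absurd ((hB β').1 h).2 h3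
    · obtain ⟨h4, h5⟩ := (hC α' β').1 h
      rw [huniq α' ((hD α').1 h5), h4]

lemma fact_two (α β : ℕ) : (2 ^ α * 3 ^ β).factorization 2 = α := by
  rw [Nat.factorization_mul (by positivity) (by positivity), Nat.prime_two.factorization_pow,
    Nat.prime_three.factorization_pow]
  simp

lemma fact_three (α β : ℕ) : (2 ^ α * 3 ^ β).factorization 3 = β := by
  rw [Nat.factorization_mul (by positivity) (by positivity), Nat.prime_two.factorization_pow,
    Nat.prime_three.factorization_pow]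
  simp

lemma exists_double : ∃ a : ℕ → ℤ, ∀ n : ℤ, 1 ≤ n →
    {m | m ∈ {m : ℕ | 2 ≤ m ∧ ∃ α β : ℕ, m = 2 ^ α * 3 ^ β} ∧ n ≡ a m [ZMOD m]}.encard = 2 := by
  refine ⟨fun m => res (m.factorization 2) (m.factorization 3), fun n hn => ?_⟩
  obtain ⟨α, h1, h2⟩ := two_adic hn
  obtain ⟨⟨α', β'⟩, h3, h4⟩ := three_adic hn
  refine Set.encard_eq_two.2 ⟨2 ^ (α + 1) * 3 ^ 0, 2 ^ α' * 3 ^ (β' + 1), fun h => ?_, ?_⟩
  · have := congrArg (fun m : ℕ => m.factorization 3) h
    simp only [fact_three] at this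
    omega
  · ext m
    simp only [Set.mem_ofPred_eq, Set.mem_insert_iff, Set.mem_singleton_iff]
    constructor
    · rintro ⟨⟨h5, γ, β, rfl⟩, h6⟩
      rw [fact_two, fact_three] at h6
      push_cast at h6
      rcases β with _ | β
      · rcases γ with _ | γ
        · norm_num at h5
        · rw [res, pow_zero, mul_one] at h6
          rw [h2 γ h6]
          exact Or.inl rfl
      · obtain ⟨rfl, rfl⟩ := Prod.mk.inj (h4 (γ, β) h6)
        exact Or.inr rfl
    · rintro (rfl | rfl)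
      · refine ⟨⟨?_, _, _, rfl⟩, ?_⟩
        · rw [pow_zero, mul_one]
          exact Nat.le_self_pow (by omega) 2
        · rw [fact_two, fact_three, res]
          push_cast
          rwa [mul_one]
      · refine ⟨⟨?_, _, _, rfl⟩, ?_⟩
        · have := Nat.le_self_pow (n := β' + 1) (by omega) 3
          exact le_trans (by omega) (Nat.le_mul_of_pos_left _ (by positivity))
        · rw [fact_two, fact_three]
          push_cast
          exact h3

theorem multi (k : ℕ) (hk : 2 ≤ k) (M : Set ℕ) (hM : ∀ m ∈ M, 2 ≤ m) :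
    (∃ a : ℕ → ℤ, (∀ n : ℤ, 1 ≤ n → {m | m ∈ M ∧ n ≡ a m [ZMOD m]}.encard = k) ∧
      HasSum (fun m : M => (1 : ℝ) / (m : ℕ)) k) ↔
    k = 2 ∧ M = {m | 2 ≤ m ∧ ∃ α β : ℕ, m = 2 ^ α * 3 ^ β} := by
  constructor
  · rintro ⟨a, h1, h2⟩
    have hS : Sys 1 k (fun i : M => a i) (fun i : M => (i : ℕ)) := by
      refine ⟨fun i => ?_, fun d => ?_, fun n hn => ?_, h2⟩
      · have := hM i i.2
        omega
      · exact Set.encard_le_one_iff.2 fun i j hi hj => Subtype.ext (hi.trans hj.symm)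
      · rw [← h1 n hn, ← Subtype.val_injective.encard_image]
        refine Set.encard_le_encard ?_
        rintro _ ⟨i, hi, rfl⟩
        exact ⟨i.2, hi⟩
    have hsub : M ⊆ {m | 2 ≤ m ∧ ∃ α β : ℕ, m = 2 ^ α * 3 ^ β} := fun m hm =>
      ⟨hM m hm, hS.smooth (by omega) ⟨m, hm⟩⟩
    have h3 : HasSum (M.indicator fun m : ℕ => (1 : ℝ) / m) k :=
      hasSum_subtype_iff_indicator.1 h2
    have hle := Set.indicator_le_indicator_of_subset (f := fun m : ℕ => (1 : ℝ) / m) hsub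
      fun m => by positivity
    have h4 : (k : ℝ) ≤ 2 := hasSum_le hle h3 hasSum_smooth
    have h5 : k = 2 := le_antisymm (by exact_mod_cast h4) hk
    refine ⟨h5, hsub.antisymm fun m hm => ?_⟩
    by_contra hn
    have h6 := hasSum_lt (i := m) hle (by
      rw [Set.indicator_of_notMem hn, Set.indicator_of_mem hm]
      have : (0 : ℝ) < m := by exact_mod_cast lt_of_lt_of_le two_pos hm.1
      positivity) h3 hasSum_smooth
    rw [h5] at h6
    norm_num at h6
  · rintro ⟨rfl, rfl⟩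
    obtain ⟨a, ha⟩ := exists_double
    have h := hasSum_subtype_iff_indicator.2 hasSum_smooth
    exact ⟨a, ha, by exact_mod_cast h⟩

end Pool.Agent.Work.MP_cda74c_nt.Hedge
end
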